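import Mathlib

/-! One application of the inequality of Hoelder: a weighted integral propagates. -/

set_option autoImplicit false

namespace Pool.Agent.Lib.MP_5c318e_ag.Ex

open MeasureTheory
open scoped ENNReal

/-- the pointwise form of the Hoelder step -/
theorem holder_pt {a a' A : ℝ≥0∞} (ha : a ≠ ⊤) (ha' : a' ≠ ⊤) (hA : A ≠ 0) {γ : ℝ} (h0 : 0 < γ)
    (h1 : γ < 1) (hfin : a' ^ (2 : ℝ) * a ^ (-(2 * γ)) * A ≠ ⊤) :
    a' ^ (2 * (1 - γ)) * A ≤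
      (a' ^ (2 : ℝ) * a ^ (-(2 * γ)) * A) ^ (1 - γ) * (a ^ (2 * (1 - γ)) * A) ^ γ := by
  have q0 : 0 < 1 - γ := sub_pos.2 h1
  rcases eq_or_ne a' 0 with rfl | b0
  · rw [ENNReal.zero_rpow_of_pos (by positivity), zero_mul]
    exact zero_le
  have p1 : a' ^ (2 : ℝ) ≠ 0 := by simp [b0]
  have a0 : a ≠ 0 := by
    rintro rfl
    rw [ENNReal.zero_rpow_of_neg (by linarith), ENNReal.mul_top p1, ENNReal.top_mul hA] at hfin
    exact hfin rfl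
  have A1 : A ≠ ⊤ := by
    rintro rfl
    rw [ENNReal.mul_top (mul_ne_zero p1 (by simp [a0, ha]))] at hfin
    exact hfin rfl
  refine le_of_eq ?_
  rw [ENNReal.mul_rpow_of_nonneg _ _ q0.le, ENNReal.mul_rpow_of_nonneg _ _ q0.le,
    ENNReal.mul_rpow_of_nonneg _ _ h0.le, ← ENNReal.rpow_mul, ← ENNReal.rpow_mul,
    ← ENNReal.rpow_mul]
  have e1 : a ^ (-(2 * γ) * (1 - γ)) * a ^ (2 * (1 - γ) * γ) = 1 := by
    rw [← ENNReal.rpow_add _ _ a0 ha, show -(2 * γ) * (1 - γ) + 2 * (1 - γ) * γ = 0 by ring,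
      ENNReal.rpow_zero]
  have e2 : A ^ (1 - γ) * A ^ γ = A := by
    rw [← ENNReal.rpow_add _ _ hA A1, sub_add_cancel, ENNReal.rpow_one]
  calc _ = a' ^ (2 * (1 - γ)) * (a ^ (-(2 * γ) * (1 - γ)) * a ^ (2 * (1 - γ) * γ)) *
        (A ^ (1 - γ) * A ^ γ) := by rw [e1, e2, mul_one]
    _ = _ := by ring

/-- the tube integral propagates -/
theorem holder_int {X : Type*} [MeasurableSpace X] {μ : Measure X} {a a' A : X → ℝ≥0∞}
    (ma : Measurable a) (ma' : Measurable a') (mA : Measurable A) (ha : ∀ x, a x ≠ ⊤)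
    (ha' : ∀ x, a' x ≠ ⊤) (hA : ∀ x, A x ≠ 0) {γ : ℝ} (h0 : 0 < γ) (h1 : γ < 1)
    (hL : ∫⁻ x, a' x ^ (2 : ℝ) * a x ^ (-(2 * γ)) * A x ∂μ ≠ ⊤)
    (hQ : ∫⁻ x, a x ^ (2 * (1 - γ)) * A x ∂μ ≠ ⊤) :
    ∫⁻ x, a' x ^ (2 * (1 - γ)) * A x ∂μ ≠ ⊤ := by
  have q0 : 0 < 1 - γ := sub_pos.2 h1
  have m1 : Measurable fun x => a' x ^ (2 : ℝ) * a x ^ (-(2 * γ)) * A x :=
    ((ma'.pow_const _).mul (ma.pow_const _)).mul mA
  have m2 : Measurable fun x => a x ^ (2 * (1 - γ)) * A x := (ma.pow_const _).mul mA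
  refine ne_top_of_le_ne_top ?_ (le_trans (lintegral_mono_ae ((ae_lt_top m1 hL).mono
    fun x hx => holder_pt (ha x) (ha' x) (hA x) h0 h1 hx.ne))
    (ENNReal.lintegral_mul_norm_pow_le m1.aemeasurable m2.aemeasurable q0.le h0.le
      (sub_add_cancel 1 γ)))
  exact ENNReal.mul_ne_top (ENNReal.rpow_ne_top_of_nonneg q0.le hL)
    (ENNReal.rpow_ne_top_of_nonneg h0.le hQ)

end Pool.Agent.Lib.MP_5c318e_ag.Ex
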