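import Pool.Agent.Lib.MP_5c318e_ag.V.Upg
import Pool.Agent.Lib.MP_5c318e_ag.W.Van

/-! Division of analytic germs by a linear coordinate; raising the order along a hyperplane. -/

set_option autoImplicit false

namespace Pool.Agent.Lib.MP_5c318e_ag.ExD

open MeasureTheory Set Filter Topology Metric

variable {E : Type} [NormedAddCommGroup E] [NormedSpace ℂ E] [FiniteDimensional ℂ E]

/-- a germ that vanishes on `l = 0` is divisible by `l` -/
theorem exists_div (l : E →L[ℂ] ℂ) {v q0 : E} (hv : l v = 1) (h0 : l q0 = 0) {H : E → ℂ}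
    (hH : AnalyticAt ℂ H q0) (hz : ∀ᶠ q in 𝓝 q0, l q = 0 → H q = 0) :
    ∃ H' : E → ℂ, AnalyticAt ℂ H' q0 ∧ ∀ᶠ q in 𝓝 q0, H q = l q * H' q := by
  have := FiniteDimensional.complete ℂ E
  let φ : E × ℂ → E := fun p => p.1 - l p.1 • v + p.2 • v
  have aφ : ∀ p, AnalyticAt ℂ φ p := fun p =>
    (analyticAt_fst.sub (((l.analyticAt _).comp analyticAt_fst).smul analyticAt_const)).add
      (analyticAt_snd.smul analyticAt_const)
  have e0 : φ (q0, 0) = q0 := by simp [φ, h0]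
  have aG : AnalyticAt ℂ (fun p => H (φ p)) (q0, 0) := AnalyticAt.comp (by rwa [e0]) (aφ _)
  have tφ : Tendsto φ (𝓝 (q0, 0)) (𝓝 q0) := by
    have := (aφ (q0, 0)).continuousAt
    rwa [ContinuousAt, e0] at this
  obtain ⟨r, r0, hr⟩ := Metric.eventually_nhds_iff_ball.1 (aG.eventually_analyticAt.and
    ((tφ.eventually hz).and (aG.continuousAt.norm.eventually_lt_const (lt_add_one _))))
  have mem : ∀ {a : E} {t : ℂ}, a ∈ ball q0 r → t ∈ ball (0 : ℂ) r → (a, t) ∈ ball (q0, (0 : ℂ)) r :=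
    fun ha ht => by rw [← ball_prod_same]; exact ⟨ha, ht⟩
  have z0 : ∀ a ∈ ball q0 r, H (φ (a, 0)) = 0 := fun a ha =>
    (hr _ (mem ha (mem_ball_self r0))).2.1 (by simp [φ, hv])
  have d2 : ∀ a ∈ ball q0 r, DifferentiableOn ℂ (fun t => H (φ (a, t))) (ball 0 r) := fun a ha t ht =>
    (((hr _ (mem ha ht)).1.comp (f := fun t : ℂ => (a, t))
      (analyticAt_const.prod analyticAt_id)).differentiableAt).differentiableWithinAt
  let f : E × ℂ → ℂ := fun p => dslope (fun t => H (φ (p.1, t))) 0 p.2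
  have af : AnalyticAt ℂ f (q0, 0) := by
    refine V.analyticAt_of_sep (C := 2 * (‖H (φ (q0, 0))‖ + 1) / r) r0 (fun t ht a ha => ?_)
      (fun a ha => (Complex.differentiableOn_dslope (ball_mem_nhds _ r0)).2 (d2 a ha))
      fun a ha t ht => ?_
    · have an := (hr _ (mem ha ht)).1
      have ca : AnalyticAt ℂ (fun a : E => (a, t)) a := analyticAt_id.prod analyticAt_const
      rcases eq_or_ne t 0 with rfl | t0
      · refine DifferentiableWithinAt.congr (f := fun a =>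
          fderiv ℂ (fun p => H (φ p)) (a, 0) (0, 1)) ?_ (fun b hb => ?_) ?_
        · exact ((an.fderiv.comp (f := fun a : E => (a, (0 : ℂ))) ca).differentiableAt.clm_apply
            (differentiableAt_const _)).differentiableWithinAt
        · exact (dslope_same _ _).trans ((hr _ (mem hb ht)).1.differentiableAt.hasFDerivAt.comp_hasDerivAt
            (0 : ℂ) ((hasDerivAt_const _ b).prodMk (hasDerivAt_id _))).deriv
        · exact (dslope_same _ _).trans (an.differentiableAt.hasFDerivAt.comp_hasDerivAt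
            (0 : ℂ) ((hasDerivAt_const _ a).prodMk (hasDerivAt_id _))).deriv
      · refine DifferentiableWithinAt.congr (f := fun a => t⁻¹ * H (φ (a, t)))
          ((an.comp (f := fun a : E => (a, t)) ca).differentiableAt.const_mul _).differentiableWithinAt (fun b hb => ?_) ?_
        · simp only [f, dslope_of_ne _ t0, slope_def_field, z0 b hb, sub_zero, div_eq_inv_mul]
        · simp only [f, dslope_of_ne _ t0, slope_def_field, z0 a ha, sub_zero, div_eq_inv_mul]
    · refine Complex.norm_dslope_le_div_of_mapsTo_ball (d2 a ha) (fun s hs => ?_) ht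
      rw [z0 a ha, mem_closedBall_zero_iff]
      linarith [(hr _ (mem ha hs)).2.2, norm_nonneg (H (φ (q0, 0)))]
  have aq : AnalyticAt ℂ (fun q => (q, l q)) q0 := analyticAt_id.prod (l.analyticAt _)
  refine ⟨fun q => f (q, l q), AnalyticAt.comp (g := f) (f := fun q => (q, l q)) (by rwa [h0]) aq, ?_⟩
  filter_upwards [ball_mem_nhds q0 r0] with q hq
  have := sub_smul_dslope (fun t => H (φ (q, t))) 0 (l q)
  rw [z0 q hq, sub_zero, sub_zero, smul_eq_mul] at this
  rw [this]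
  simp [φ]

/-- `f = l ^ a H` near `q0` with `H` analytic -/
def Ge (l : E →L[ℂ] ℂ) (q0 : E) (f : E → ℂ) (a : ℤ) : Prop :=
  ∃ H : E → ℂ, AnalyticAt ℂ H q0 ∧ ∀ᶠ q in 𝓝 q0, l q ≠ 0 → f q = l q ^ a * H q

variable {l : E →L[ℂ] ℂ} {v q0 : E} {f : E → ℂ}

omit [FiniteDimensional ℂ E] in
theorem Ge.mono {a a' : ℤ} (h : Ge l q0 f a) (ha : a' ≤ a) : Ge l q0 f a' := by
  obtain ⟨H, h1, h2⟩ := h
  obtain ⟨n, rfl⟩ := Int.le.dest ha
  refine ⟨fun q => l q ^ n * H q, ((l.analyticAt _).pow n).mul h1, h2.mono fun q hq h0 => ?_⟩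
  rw [hq h0, zpow_add₀ h0, zpow_natCast, mul_assoc]

omit [FiniteDimensional ℂ E] in
theorem Ge.le {a : ℤ} (h : Ge l q0 f a) :
    ∃ C : ℝ, 0 < C ∧ ∀ᶠ q in 𝓝 q0, l q ≠ 0 → ‖f q‖ ≤ C * ‖l q‖ ^ a := by
  obtain ⟨H, h1, h2⟩ := h
  refine ⟨‖H q0‖ + 1, by positivity, ?_⟩
  filter_upwards [h2, h1.continuousAt.norm.eventually_lt_const (lt_add_one _)] with q a1 a2 h0
  rw [a1 h0, norm_mul, norm_zpow, mul_comm]
  gcongr

/-- the order is at least `a'` if no smaller exponent gives a lower bound near the hyperplane -/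
theorem Ge.raise (hv : l v = 1) (h0 : l q0 = 0) {a a' : ℤ} (h : Ge l q0 f a)
    (H : ∀ b < a', ¬ ∃ᶠ q1 in 𝓝 q0, l q1 = 0 ∧
      ∃ c : ℝ, 0 < c ∧ ∀ᶠ q in 𝓝 q1, l q ≠ 0 → c * ‖l q‖ ^ b ≤ ‖f q‖) : Ge l q0 f a' := by
  have := FiniteDimensional.complete ℂ E
  rcases le_total a' a with ha | ha
  · exact h.mono ha
  induction a', ha using Int.leInduction with
  | base => exact h
  | succ b hb ih =>
    obtain ⟨G, g1, g2⟩ := ih fun c hc => H c (by omega)
    have z : ∀ᶠ q in 𝓝 q0, l q = 0 → G q = 0 := by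
      filter_upwards [not_frequently.1 (H b (by omega)), g1.eventually_analyticAt,
        g2.eventually_nhds] with q a1 a2 a3 a4
      by_contra a5
      have a6 := norm_pos_iff.2 a5
      refine a1 ⟨a4, ‖G q‖ / 2, by positivity, ?_⟩
      filter_upwards [a3, a2.continuousAt.norm.eventually_const_lt (half_lt_self a6)] with p b1 b2 b3
      rw [b1 b3, norm_mul, norm_zpow, mul_comm]
      gcongr
    obtain ⟨G', k1, k2⟩ := exists_div l hv h0 g1 z
    refine ⟨G', k1, ?_⟩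
    filter_upwards [g2, k2] with q a1 a2 a3
    rw [a1 a3, a2, zpow_add_one₀ a3, mul_assoc]

/-- `|u|^(-2)` is not integrable near a point of `u = 0` -/
theorem lint_top {δ : Type} [Fintype δ] [DecidableEq δ] (i0 : δ) {y1 : δ → ℂ} (h : y1 i0 = 0) {ρ : ℝ}
    (hρ : 0 < ρ) {c : ℝ} (hc : 0 < c) :
    ∫⁻ y in {y ∈ ball y1 ρ | y i0 ≠ 0}, ENNReal.ofReal (c * ‖y i0‖ ^ (-2 : ℝ)) = ⊤ := by
  have h1 := RD.WP.lint_top (κ := Unit) ⟨fun _ => i0, fun _ _ _ => rfl⟩ y1 hρ
  have h2 : ({y ∈ ball y1 ρ | y i0 ≠ 0} : Set (δ → ℂ)) =ᵐ[volume] ball y1 ρ := by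
    filter_upwards [Measure.ae_eval_ne (fun _ : δ => (volume : Measure ℂ)) i0 0] with y hy
    exact propext ⟨fun a => a.1, fun a => ⟨a, hy⟩⟩
  have h3 : ∫⁻ y in {y ∈ ball y1 ρ | y i0 ≠ 0}, ENNReal.ofReal (c * ‖y i0‖ ^ (-2 : ℝ)) =
      ∫⁻ y in {y ∈ ball y1 ρ | y i0 ≠ 0}, ENNReal.ofReal c * (ENNReal.ofReal (‖y i0‖ ^ 2))⁻¹ := by
    refine setLIntegral_congr_fun (measurableSet_ball.inter
      (isOpen_ne_fun (continuous_apply i0) continuous_const).measurableSet) fun y hy => ?_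
    have := norm_pos_iff.2 hy.2
    rw [ENNReal.ofReal_mul hc.le, Real.rpow_neg this.le, ENNReal.ofReal_inv_of_pos (by positivity),
      Real.rpow_two]
  rw [h3, setLIntegral_congr h2, lintegral_const_mul' _ _ ENNReal.ofReal_ne_top]
  simp only [Function.Embedding.coeFn_mk, h, sub_zero, Finset.univ_unique, Finset.sum_singleton,
    Fintype.card_unique, pow_one] at h1
  rw [h1, ENNReal.mul_top (by simpa using hc)]

end Pool.Agent.Lib.MP_5c318e_ag.ExD
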