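import Pool.Agent.Lib.MP_5c318e_ag.Ex.Vert
import Pool.Agent.Lib.MP_5c318e_ag.D.Step
import Pool.Agent.Lib.MP_5c318e_ag.D.Ratio
import Pool.Agent.Lib.MP_5c318e_ag.Va.VDefs

/-! The end of the proof for a frame of rank at least one over a base with a horizontal norm. -/

set_option autoImplicit false
set_option linter.unusedSectionVars false

namespace Pool.Agent.Lib.MP_5c318e_ag

open MeasureTheory Set Filter Topology Metric
open scoped ENNReal

theorem Ex.ev_tc {m A c0 : ℝ} (hm : 3 ≤ m) (hA : 0 < A) (hc : 0 < c0) : ∀ᶠ b : ℝ in atTop,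
    ∃ t c : ℝ, 0 ≤ t ∧ 0 < c ∧ 2 * c ≤ c0 ∧ t + c = 1 - 1 / m ∧ c * b = (1 - t) * A := by
  have m0 : 0 < m := by linarith
  have h : Tendsto (fun b : ℝ => A / (m * (b - A))) atTop (𝓝 0) :=
    tendsto_const_nhds.div_atTop ((tendsto_atTop_add_const_right _ (-A) tendsto_id).const_mul_atTop m0)
  filter_upwards [h.eventually (ge_mem_nhds (half_pos hc)), h.eventually (ge_mem_nhds one_half_pos),
    eventually_gt_atTop A] with b h1 h2 h3
  have h4 : 0 < b - A := sub_pos.2 h3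
  have h5 : 1 / m ≤ 1 / 3 := one_div_le_one_div_of_le (by norm_num) hm
  refine ⟨1 - 1 / m - A / (m * (b - A)), _, by linarith, by positivity, by linarith,
    sub_add_cancel _ _, ?_⟩
  field_simp
  ring

variable {ε γ ν K M : Type} [Fintype ε] [DecidableEq ε] [Fintype γ] [DecidableEq γ] [Fintype ν]
  [DecidableEq ν] [Field K] [Algebra ℂ K] [Field M] [Algebra ℂ M] [Algebra K M]
  [IsScalarTower ℂ K M]

theorem Bdy.ev_ge (B : Cht γ K) (v : ValuationSubring K) (g : K) :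
    ∀ᶠ N : ℕ in atTop, ∀ b : Bdy B v, b.Ge g (-N) := by
  by_cases h : Nonempty (Bdy B v)
  · obtain ⟨b0⟩ := h
    obtain ⟨n, hn⟩ := b0.exists_ge g
    filter_upwards [eventually_ge_atTop n.natAbs] with N hN b
    have e : v.valuation b.z = v.valuation b0.z :=
      le_antisymm (b0.cen.adp.le_unif b.val_lt) (b.cen.adp.le_unif b0.val_lt)
    rw [b.ge_val, e, ← b0.ge_val]
    exact hn.mono (by omega)
  · exact .of_forall fun _ b => absurd ⟨b⟩ h

namespace Dat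

variable (d : Dat (ε ⊕ γ) K ν M)

theorem exists_chain {κ : Type} [Fintype κ] [DecidableEq κ] {g : d.B.O} (hg : IsUnit g) (θ : ℝ)
    (w0 : ε → ℂ) {ρ : ℝ} (hρ : 0 < ρ) {t c : ℝ} (ht : 0 ≤ t) (hc : 0 ≤ c)
    (hs : t + c = 1 - 1 / d.m) (U0 V : d.Ten κ) (h : ∫⁻ y in {y | ‖d.w y - w0‖ < ρ},
      d.wt g θ y * d.I3 U0 U0 V (2 - 2 * t) 0 (2 * c) y ∂d.B.D.μ < ⊤) :
    ∃ U : ℕ → d.Ten κ, U 0 = U0 ∧ d.Chain g θ t c V U ∧
      ∀ i y, d.w y = w0 → ∀ I, y (U i I) = y (U0 I) := by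
  let S := {X : d.Ten κ // ∫⁻ y in {y | ‖d.w y - w0‖ < ρ},
    d.wt g θ y * d.I3 X X V (2 - 2 * t) 0 (2 * c) y ∂d.B.D.μ < ⊤}
  choose F h1 h2 h3 using fun X : S => d.step hg θ w0 hρ ht hc hs X.1 V X.2
  let f : S → S := fun X => ⟨F X, h3 X⟩
  refine ⟨fun i => (f^[i] ⟨U0, h⟩).1, rfl, fun i => ?_, fun i y hy I => ?_⟩
  · simp only [Function.iterate_succ_apply']
    exact h2 _
  · induction i with
    | zero => rfl
    | succ i ih =>
      simp only [Function.iterate_succ_apply']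
      exact (h1 _ y hy I).trans ih

theorem end_V (hX : SmoothModel ℂ M) (Bo : d.BaseOut) (Fl : d.FlatOut Bo.g Bo.a1) : EndV d := by
  classical
  obtain ⟨V, hV, hP⟩ := d.T.toRel.plu_of_fin hX
  obtain ⟨N, hN⟩ : ∃ N : ℕ, ∀ O ∈ V, ∀ i, ∀ b : Bdy d.B (O.comap (algebraMap K M)),
      b.Ge (d.B.z (Sum.inl i)) (-N) :=
    ((eventually_all_finset V).2 fun O _ => eventually_all.2 fun i => Bdy.ev_ge _ _ _).exists
  obtain ⟨l, P, hl, P0, pay⟩ := Bo.pay (V.image fun O => O.comap (algebraMap K M))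
    (d.m * (1 + (Fintype.card ε + 1) * N) + 1 + N) fun v hv => by
      obtain ⟨O, hO, rfl⟩ := Finset.mem_image.1 hv
      exact (divisorial_vertical d.B.basis d.T.basis (hV O hO).1 (hV O hO).2).1
  choose C i0 σ hC hσ pay using fun O : V => pay _ (Finset.mem_image_of_mem _ O.2)
  choose j0 H using fun O : V => vert (hV O O.2).1 (hV O O.2).2 ⟨C O, i0 O, σ O, hC O, hσ O⟩
    Bo.unit Bo.pos Fl hl P0 (fun i => hN O O.2 i _) le_rfl (pay O)
  obtain ⟨J, hJ⟩ := Finite.exists_le j0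
  have a0 : (0 : ℝ) < Bo.a1 := by exact_mod_cast Bo.pos
  obtain ⟨x0, hx0⟩ := eventually_atTop.1 (Ex.ev_tc (m := d.m) (A := Bo.a1 * l)
    (by exact_mod_cast d.hm) (by positivity) Fl.c0pos)
  obtain ⟨x, hx⟩ : ∃ x : ℕ, x = ⌈x0⌉₊ + J + 1 := ⟨_, rfl⟩
  let β := Fin (d.k * x) × Fin d.r
  let β' := Fin (d.k * x) × Fin Fl.n
  let κ := β × Fin Fl.n
  have hk := d.hk
  have hr := d.hr
  have hn := Fl.pos
  have hm : 0 < d.m := by have := d.hm; omega
  have x1 : 0 < x := by omega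
  have cβ : Fintype.card β = d.k * x * d.r := by simp [β]
  have cβ' : Fintype.card β' = d.k * x * Fl.n := by simp [β']
  have cκ : Fintype.card κ = d.k * x * d.r * Fl.n := by simp [κ, β]
  have : Nonempty κ := Fintype.card_pos_iff.1 (by rw [cκ]; positivity)
  let e' : β' × Fin d.r ≃ κ := Fintype.equivOfCardEq (by simp [cκ, cβ']; ring)
  obtain ⟨t, c, ht, hc, hc0, htc, hβ⟩ := hx0 (Fintype.card β') (Nat.ceil_le.1 (by
    rw [cβ', mul_right_comm]
    exact le_trans (by omega) (Nat.le_mul_of_pos_left x (by positivity))))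
  obtain ⟨j, hj⟩ : ∃ j, j + 1 = d.m * d.r * Fl.n * x :=
    ⟨_, Nat.succ_pred_eq_of_pos (by positivity)⟩
  have j1 : J ≤ j := by
    have := Nat.le_mul_of_pos_left x (show 0 < d.m * d.r * Fl.n by positivity)
    omega
  have hq : d.m * Fintype.card κ = d.k * (j + 1) := by rw [hj, cκ]; ring
  obtain ⟨ρ, hρ, st⟩ := FlatOut.start d (κ := κ) Bo.unit Bo.pos Fl
  have eθ : c * Fintype.card β' / Bo.a1 = (1 - t) * l := by rw [hβ]; field_simp
  choose U U0 U1 U2 using fun i => d.exists_chain Bo.unit _ _ hρ ht hc.le htc _ _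
    (eθ ▸ st β β' (Equiv.refl _) e' t c hc hc0 htc i)
  obtain ⟨n, hn⟩ := (eventually_all.2 fun i => eventually_all.2 fun O : V =>
    H O κ β β' (Equiv.refl _) e' t c ht hc.le htc (by rw [hβ, mul_assoc]) j ((hJ O).trans j1) hq i
      (U i) (U0 i) (U1 i)).exists
  have g0 : (Bo.g : K) ≠ 0 := fun e => Bo.unit.ne_zero (Subtype.ext e)
  have η0 : (d.η : K) ≠ 0 := fun e => d.unit.ne_zero (Subtype.ext e)
  have P1 : (P : K) ≠ 0 := fun e => P0 (Subtype.ext e)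
  have Q0 : algebraMap K M (P / Bo.g ^ l * d.η ^ j) ≠ 0 := by
    rw [map_ne_zero]
    positivity
  obtain ⟨⟨s, hs⟩, alg⟩ := d.ratio (fun i => U i n) Fl.b0 (fun ξ hξ => Fl.gen ξ fun i => by
    have : d.tq (U i n) Fl.b0 ξ = d.tq (d.blk (Fl.S i) (Equiv.refl κ)) Fl.b0 ξ :=
      Finset.sum_congr rfl fun I _ => by rw [U2 i n _ rfl]
    exact eq_zero_of_pow_eq_zero (by rw [← d.tq_blk _ (Equiv.refl κ), ← this, hξ i])) Q0
  have gi : (Bo.g : K)⁻¹ ∈ d.B.O := by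
    obtain ⟨u, hu⟩ := Bo.unit.exists_right_inv
    rw [← eq_inv_of_mul_eq_one_right (congrArg Subtype.val hu)]
    exact u.2
  have key : ∀ i, ∀ a : K, (a = 1 ∨ ∃ i, a = d.B.z (Sum.inl i)) → ∀ η1, Plu d.B.der d.k η1 →
      Plu d.T.X.der (d.m * Fintype.card κ)
        (d.diag (U i n) * algebraMap K M (P / Bo.g ^ l * a * d.η ^ j * η1)) := by
    intro i a ha η1 h1
    refine hP _ _ _ (d.diag_mem _) ?_ (d.diag_plu _) fun O hO => hn i ⟨O, hO⟩ a ha η1 h1
    refine mul_mem (mul_mem (mul_mem ?_ ?_) (pow_mem d.η.2 _)) (d.mem _ h1)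
    · rw [div_eq_mul_inv, ← inv_pow]
      exact mul_mem P.2 (pow_mem gi _)
    · rcases ha with rfl | ⟨i, rfl⟩
      exacts [one_mem _, Subtype.property _]
  refine ⟨d.m * Fintype.card κ, by rw [hq]; positivity, _, ?_, ?_, alg⟩
  · exact ⟨_, mul_ne_zero hs Q0, s, rfl⟩
  rintro _ ⟨h0, i, rfl⟩
  refine ⟨h0, fun η1 h1 => ⟨?_, fun i' => ?_⟩⟩
  · convert key i 1 (Or.inl rfl) η1 h1 using 1
    simp only [map_mul, mul_one, mul_assoc]
  · convert key i _ (Or.inr ⟨i', rfl⟩) η1 h1 using 1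
    simp only [map_mul]
    ring

theorem end_gen (hX : SmoothModel ℂ M) (Bo : d.BaseOut) (Fl : d.FlatOut Bo.g Bo.a1) : EndOut d :=
  (d.end_V hX Bo Fl).out

end Dat

end Pool.Agent.Lib.MP_5c318e_ag
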