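import Pool.Agent.Lib.MP_9ff3e7_ag.F.Riem

/-! Orders of germs along a hyperplane `u = 0`. -/

set_option autoImplicit false
set_option linter.unusedSectionVars false

namespace Pool.Agent.Lib.MP_5c318e_ag.Ex

open MeasureTheory Set Filter Topology Metric
open Pool.Agent.Lib.MP_9ff3e7_ag

variable {E E' : Type} [NormedAddCommGroup E] [NormedSpace ℂ E] [NormedAddCommGroup E']
  [NormedSpace ℂ E']

/-- near `x` and off `u = 0`, `f` is `u ^ a` times an analytic function -/
def Od (u : E →L[ℂ] ℂ) (x : E) (f : E → ℂ) (a : ℤ) : Prop :=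
  ∃ H : E → ℂ, AnalyticAt ℂ H x ∧ ∀ᶠ q in 𝓝 x, u q ≠ 0 → f q = u q ^ a * H q

/-- the coordinate `i0` of the first factor -/
noncomputable def uu {δ : Type} [Fintype δ] (i0 : δ) (X : Type) [NormedAddCommGroup X]
    [NormedSpace ℂ X] : ((δ → ℂ) × X) →L[ℂ] ℂ :=
  (ContinuousLinearMap.proj i0).comp (ContinuousLinearMap.fst ℂ (δ → ℂ) X)

@[simp] theorem uu_apply {δ : Type} [Fintype δ] (i0 : δ) (X : Type) [NormedAddCommGroup X]
    [NormedSpace ℂ X] (q : (δ → ℂ) × X) : uu i0 X q = q.1 i0 := rfl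

theorem uu_ne {δ : Type} [Fintype δ] (i0 : δ) (X : Type) [NormedAddCommGroup X]
    [NormedSpace ℂ X] : uu i0 X ≠ 0 := fun h => by
  simpa using congrArg (fun l : ((δ → ℂ) × X) →L[ℂ] ℂ => l (fun _ => 1, 0)) h

variable {u : E →L[ℂ] ℂ} {x : E} {f g : E → ℂ} {a b : ℤ}

theorem Od.congr (h : Od u x f a) (e : ∀ᶠ q in 𝓝 x, u q ≠ 0 → g q = f q) : Od u x g a := by
  obtain ⟨H, h1, h2⟩ := h
  exact ⟨H, h1, (h2.and e).mono fun q hq h0 => (hq.2 h0).trans (hq.1 h0)⟩

theorem Od.mono (h : Od u x f a) (hb : b ≤ a) : Od u x f b := by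
  obtain ⟨H, h1, h2⟩ := h
  obtain ⟨n, rfl⟩ := Int.le.dest hb
  refine ⟨fun q => u q ^ n * H q, ((u.analyticAt x).pow n).mul h1, h2.mono fun q hq h0 => ?_⟩
  rw [hq h0, zpow_add₀ h0, zpow_natCast, mul_assoc]

theorem Od.mul (h : Od u x f a) (h' : Od u x g b) : Od u x (fun q => f q * g q) (a + b) := by
  obtain ⟨H, h1, h2⟩ := h
  obtain ⟨G, g1, g2⟩ := h'
  refine ⟨fun q => H q * G q, h1.mul g1, (h2.and g2).mono fun q hq h0 => ?_⟩
  simp only
  rw [hq.1 h0, hq.2 h0, zpow_add₀ h0]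
  ring

theorem Od.add (h : Od u x f a) (h' : Od u x g a) : Od u x (fun q => f q + g q) a := by
  obtain ⟨H, h1, h2⟩ := h
  obtain ⟨G, g1, g2⟩ := h'
  refine ⟨fun q => H q + G q, h1.add g1, (h2.and g2).mono fun q hq h0 => ?_⟩
  simp only
  rw [hq.1 h0, hq.2 h0, mul_add]

theorem od_ana (h : AnalyticAt ℂ f x) : Od u x f 0 := ⟨f, h, Eventually.of_forall fun q _ => by simp⟩

theorem od_zero (a : ℤ) : Od u x (fun _ => 0) a :=
  ⟨fun _ => 0, analyticAt_const, Eventually.of_forall fun q _ => by simp⟩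

theorem od_sum {α : Type*} (s : Finset α) {F : α → E → ℂ} (h : ∀ i ∈ s, Od u x (F i) a) :
    Od u x (fun q => ∑ i ∈ s, F i q) a := by
  classical
  induction s using Finset.induction_on with
  | empty => simpa using od_zero a
  | insert i s hi ih =>
    simp only [Finset.sum_insert hi]
    exact (h i (Finset.mem_insert_self i s)).add (ih fun j hj => h j (Finset.mem_insert_of_mem hj))

theorem od_prod {α : Type*} (s : Finset α) {F : α → E → ℂ} {c : α → ℤ}
    (h : ∀ i ∈ s, Od u x (F i) (c i)) : Od u x (fun q => ∏ i ∈ s, F i q) (∑ i ∈ s, c i) := by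
  classical
  induction s using Finset.induction_on with
  | empty => simpa using od_ana (u := u) (x := x) (f := fun _ => 1) analyticAt_const
  | insert i s hi ih =>
    simp only [Finset.prod_insert hi, Finset.sum_insert hi]
    exact (h i (Finset.mem_insert_self i s)).mul (ih fun j hj => h j (Finset.mem_insert_of_mem hj))

theorem od_exists_sum {α : Type*} (s : Finset α) {F : α → E → ℂ}
    (h : ∀ i ∈ s, ∃ a, Od u x (F i) a) : ∃ a, Od u x (fun q => ∑ i ∈ s, F i q) a := by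
  classical
  induction s using Finset.induction_on with
  | empty => exact ⟨0, by simpa using od_zero 0⟩
  | insert i s hi ih =>
    simp only [Finset.sum_insert hi]
    obtain ⟨a, ha⟩ := h i (Finset.mem_insert_self i s)
    obtain ⟨b, hb⟩ := ih fun j hj => h j (Finset.mem_insert_of_mem hj)
    exact ⟨min a b, (ha.mono (min_le_left _ _)).add (hb.mono (min_le_right _ _))⟩

theorem Od.comp (h : Od u x f a) (L : E' →L[ℂ] E) {u' : E' →L[ℂ] ℂ} {x' : E'} (hx : L x' = x)
    (hu : ∀ q, u (L q) = u' q) : Od u' x' (fun q => f (L q)) a := by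
  obtain ⟨H, h1, h2⟩ := h
  subst hx
  refine ⟨fun q => H (L q), h1.comp (L.analyticAt x'), ?_⟩
  filter_upwards [L.continuous.continuousAt.eventually h2] with q hq h0
  rw [← hu q] at h0 ⊢
  exact hq h0

theorem od_inv {H : E → ℂ} (h1 : AnalyticAt ℂ H x) (h0 : H x ≠ 0)
    (h2 : ∀ᶠ q in 𝓝 x, u q ≠ 0 → f q = u q ^ a * H q) : Od u x (fun q => (f q)⁻¹) (-a) :=
  ⟨fun q => (H q)⁻¹, h1.inv h0, h2.mono fun q hq hu => by
    simp only
    rw [hq hu, mul_inv, zpow_neg]⟩

theorem Od.bound (h : Od u x f a) :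
    ∃ A : ℝ, 0 < A ∧ ∀ᶠ q in 𝓝 x, u q ≠ 0 → ‖f q‖ ≤ A * ‖u q‖ ^ a := by
  obtain ⟨H, h1, h2⟩ := h
  refine ⟨‖H x‖ + 1, by positivity, ?_⟩
  filter_upwards [h2, h1.continuousAt.norm.eventually (gt_mem_nhds (lt_add_one ‖H x‖))]
    with q hq hb h0
  rw [hq h0, norm_mul, norm_zpow, mul_comm]
  exact mul_le_mul_of_nonneg_right hb.le (by positivity)

/-- the identity theorem on the hyperplane -/
theorem ident {r : ℝ} (h : AnalyticOnNhd ℂ f (ball x r)) (hx : u x = 0)
    (h0 : ∀ᶠ q in 𝓝 x, u q = 0 → f q = 0) {q : E} (hq : q ∈ ball x r) (hu : u q = 0) : f q = 0 := by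
  let l : ℂ → E := fun t => x + t • (q - x)
  have lc : Continuous l := by fun_prop
  have la : ∀ t, AnalyticAt ℂ l t := fun t =>
    analyticAt_const.add (analyticAt_id.smul analyticAt_const)
  have r0 : 0 < r := pos_of_mem_ball hq
  have cv : Convex ℝ (l ⁻¹' ball x r) := fun s hs t ht α β h1 h2 h3 => by
    have := convex_ball x r hs ht h1 h2 h3
    have e : l (α • s + β • t) = α • l s + β • l t := by
      have : (α : ℂ) + β = 1 := by exact_mod_cast h3
      simp only [l, ← Complex.coe_smul, smul_eq_mul, smul_add, smul_smul, add_smul]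
      calc _ = ((α : ℂ) + β) • x + ((α * s) • (q - x) + (β * t) • (q - x)) := by rw [this, one_smul]
        _ = _ := by rw [add_smul]; abel
    rw [mem_preimage, e]
    exact this
  have l0 : l 0 = x := by simp [l]
  have l1 : l 1 = q := by simp [l]
  have an : AnalyticOnNhd ℂ (fun t => f (l t)) (l ⁻¹' ball x r) := fun t ht =>
    (h _ ht).comp (la t)
  have ev : (fun t => f (l t)) =ᶠ[𝓝 0] 0 := by
    have : Tendsto l (𝓝 0) (𝓝 x) := l0 ▸ lc.tendsto 0
    filter_upwards [this.eventually h0] with t ht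
    exact ht (by simp [l, hx, hu])
  have := an.eqOn_zero_of_preconnected_of_eventuallyEq_zero cv.isPreconnected
    (show l 0 ∈ ball x r by rw [l0]; exact mem_ball_self r0) ev
    (show l 1 ∈ ball x r by rwa [l1])
  simpa [l1] using this

theorem freq_ne (hu : u ≠ 0) (x : E) : ∃ᶠ q in 𝓝 x, u q ≠ 0 := by
  obtain ⟨e, he⟩ : ∃ e, u e ≠ 0 := by
    by_contra h
    exact hu (ContinuousLinearMap.ext fun e => by simpa using not_exists.1 h e)
  by_cases hx : u x = 0
  · have t : Tendsto (fun t : ℂ => x + t • e) (𝓝[≠] 0) (𝓝 x) := by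
      have : Continuous fun t : ℂ => x + t • e := by fun_prop
      simpa using (this.tendsto 0).mono_left nhdsWithin_le_nhds
    refine t.frequently (Eventually.frequently ?_)
    filter_upwards [self_mem_nhdsWithin] with s hs
    simpa [hx, he] using hs
  · exact (u.continuous.continuousAt.eventually_ne hx).frequently

/-- comparison of an exact order with a lower bound -/
theorem Od.le_of_eq {r : ℝ} {A : E → ℂ} {k : ℤ} (h : Od u x f a) (hu : u ≠ 0) (hx : u x = 0)
    (hA : AnalyticOnNhd ℂ A (ball x r)) (e : ∀ q ∈ ball x r, u q ≠ 0 → f q = u q ^ k * A q)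
    {q : E} (hq : q ∈ ball x r) (h0 : u q = 0) (hn : A q ≠ 0) : a ≤ k := by
  by_contra hl
  obtain ⟨H, h1, h2⟩ := h.mono (show k + 1 ≤ a by omega)
  refine hn (ident hA hx ?_ hq h0)
  have b : ball x r ∈ 𝓝 x := ball_mem_nhds x (pos_of_mem_ball hq)
  have : ∀ᶠ y in 𝓝 x, u y ≠ 0 → A y = u y * H y := by
    filter_upwards [h2, b] with y h3 h4 h5
    have := (e y h4 h5).symm.trans (h3 h5)
    rw [zpow_add_one₀ h5, mul_assoc] at this
    exact mul_left_cancel₀ (zpow_ne_zero k h5) this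
  filter_upwards [this.eventually_nhds, h1.eventually_analyticAt, b] with y h3 h4 h5 h6
  have := tendsto_nhds_unique_of_frequently_eq (hA y h5).continuousAt.tendsto
    (u.continuous.continuousAt.mul h4.continuousAt).tendsto
    (((freq_ne hu y).and_eventually h3).mono fun z hz => hz.2 hz.1)
  simpa [h6] using this

variable [FiniteDimensional ℂ E] [MeasurableSpace E] [BorelSpace E]

theorem riem (μ : Measure E) [μ.IsAddHaarMeasure] (hf : AnalyticAt ℂ f x) (hg : AnalyticAt ℂ g x)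
    (h0 : ∃ᶠ y in 𝓝 x, g y ≠ 0) {W : Set E} (hW : W ∈ 𝓝 x)
    (hi : ∫⁻ y in W ∩ {y | g y ≠ 0}, ENNReal.ofReal (‖f y / g y‖ ^ 2) ∂μ < ⊤) :
    ∃ h : E → ℂ, AnalyticAt ℂ h x ∧ ∀ᶠ y in 𝓝 x, f y = g y * h y := by
  let e : (Fin (Module.finrank ℂ E) → ℂ) ≃L[ℂ] E :=
    ContinuousLinearEquiv.ofFinrankEq (by simp)
  have ex : e (e.symm x) = x := e.apply_symm_apply x
  have t : Tendsto e (𝓝 (e.symm x)) (𝓝 x) := by simpa [ex] using e.continuous.tendsto (e.symm x)
  have t' : Tendsto e.symm (𝓝 x) (𝓝 (e.symm x)) := e.symm.continuous.tendsto x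
  obtain ⟨δ, δ0, hδ⟩ := Metric.eventually_nhds_iff_ball.1
    (t.eventually ((hf.eventually_analyticAt.and hg.eventually_analyticAt).and hW))
  have ea : ∀ y, AnalyticAt ℂ e y := fun y => (e : _ →L[ℂ] E).analyticAt y
  have : (Measure.map e volume).IsAddHaarMeasure := e.isAddHaarMeasure_map volume
  obtain ⟨h, h1, h2⟩ := F.riemann_l2 (a := fun y => f (e y)) (b := fun y => g (e y)) δ0
    (fun y hy => (hδ y hy).1.1.comp (ea y)) (fun y hy => (hδ y hy).1.2.comp (ea y))
    (fun h => h0 (by simpa using t'.eventually h)) (by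
      have em := e.toHomeomorph.measurableEmbedding
      calc _ ≤ ∫⁻ y in e ⁻¹' (W ∩ {y | g y ≠ 0}), ENNReal.ofReal (‖f (e y) / g (e y)‖ ^ 2) :=
            lintegral_mono_set fun y hy => ⟨(hδ y hy.1).2, hy.2⟩
        _ = ∫⁻ y in W ∩ {y | g y ≠ 0}, ENNReal.ofReal (‖f y / g y‖ ^ 2) ∂(Measure.map e volume) := by
            rw [show (e : _ → E) = e.toHomeomorph from rfl, em.restrict_map, em.lintegral_map]
        _ < ⊤ := by
            rw [Measure.isAddLeftInvariant_eq_smul (Measure.map e volume) μ, Measure.restrict_smul,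
              lintegral_smul_measure]
            exact ENNReal.mul_lt_top ENNReal.coe_lt_top hi)
  exact ⟨fun y => h (e.symm y), h1.comp (e.symm.toContinuousLinearMap.analyticAt x),
    by simpa using t'.eventually h2⟩

/-- the order from a weighted `L²` bound -/
theorem Od.of_l2 (μ : Measure E) [μ.IsAddHaarMeasure] (h : Od u x f a) (hu : u ≠ 0) {W : Set E}
    (hW : W ∈ 𝓝 x) (hi : ∫⁻ y in W ∩ {y | u y ≠ 0}, ENNReal.ofReal (‖f y / u y ^ b‖ ^ 2) ∂μ < ⊤) :
    Od u x f b := by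
  rcases le_or_gt b a with hb | hb
  · exact h.mono hb
  obtain ⟨H, h1, h2⟩ := h
  obtain ⟨n, rfl⟩ := Int.le.dest hb.le
  obtain ⟨V, v1, v2, v3⟩ := _root_.eventually_nhds_iff.1 (h2.and hW)
  have n0 : n ≠ 0 := by omega
  obtain ⟨k, k1, k2⟩ := riem μ (g := fun y => u y ^ n) h1 ((u.analyticAt x).pow n)
    ((freq_ne hu x).mono fun y hy => pow_ne_zero n hy) (v2.mem_nhds v3) (by
      have m : MeasurableSet (V ∩ {y | u y ^ n ≠ 0}) :=
        (v2.inter (isOpen_ne_fun (by fun_prop) continuous_const)).measurableSet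
      refine lt_of_le_of_lt ?_ hi
      refine le_trans (Eq.le (setLIntegral_congr_fun m fun y hy => ?_))
        (lintegral_mono_set fun y hy => ⟨(v1 y hy.1).2, fun e => hy.2 (by simp [e, n0])⟩)
      have y0 : u y ≠ 0 := fun e => hy.2 (by simp [e, n0])
      rw [(v1 y hy.1).1 y0, zpow_add₀ y0, zpow_natCast, mul_div_mul_left _ _ (zpow_ne_zero a y0)])
  refine ⟨k, k1, (h2.and k2).mono fun q hq h0 => ?_⟩
  rw [hq.1 h0, hq.2, zpow_add₀ h0, zpow_natCast, mul_assoc]

/-- division -/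
theorem od_one (hu : u ≠ 0) (hf : AnalyticAt ℂ f x) (hx : u x = 0)
    (h0 : ∀ᶠ q in 𝓝 x, u q = 0 → f q = 0) : Od u x f 1 := by
  obtain ⟨e, he⟩ : ∃ e, u e = 1 := by
    obtain ⟨e, he⟩ := (freq_ne hu x).exists
    exact ⟨(u e)⁻¹ • e, by simp [he]⟩
  obtain ⟨L, s, hs, hL⟩ := (hf.contDiffAt (n := 1)).exists_lipschitzOnWith
  have t : Tendsto (fun q => q - u q • e) (𝓝 x) (𝓝 x) := by
    have : Continuous fun q => q - u q • e := by fun_prop
    simpa [hx] using this.tendsto x
  have : ProperSpace E := FiniteDimensional.proper ℂ E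
  obtain ⟨δ, δ0, hδ⟩ := Metric.eventually_nhds_iff_ball.1 ((t.eventually (h0.and hs)).and hs)
  let μ : Measure E := Measure.addHaar
  refine (od_ana hf).of_l2 μ hu (ball_mem_nhds x δ0) ?_
  have m : MeasurableSet (ball x δ ∩ {y | u y ≠ 0}) :=
    (isOpen_ball.inter (isOpen_ne_fun (by fun_prop) continuous_const)).measurableSet
  calc _ ≤ ∫⁻ _ in ball x δ ∩ {y | u y ≠ 0}, ENNReal.ofReal ((L * ‖e‖) ^ 2) ∂μ := by
        refine setLIntegral_mono' m fun y hy => ENNReal.ofReal_le_ofReal ?_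
        have h1 := hL.dist_le_mul y (hδ y hy.1).2 _ (hδ y hy.1).1.2
        rw [(hδ y hy.1).1.1 (by simp [he]), dist_zero_right, dist_eq_norm, sub_sub_cancel,
          norm_smul] at h1
        have p : 0 < ‖u y‖ := norm_pos_iff.2 hy.2
        rw [zpow_one, norm_div]
        gcongr
        rw [div_le_iff₀ p]
        linarith
    _ < ⊤ := by
        rw [setLIntegral_const]
        exact ENNReal.mul_lt_top ENNReal.ofReal_lt_top
          ((measure_mono inter_subset_left).trans_lt measure_ball_lt_top)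

/-- the order can be raised as long as the leading coefficient vanishes -/
theorem Od.climb (h : Od u x f a) (hu : u ≠ 0) (hx : u x = 0)
    (H : ∀ j < b, ∀ G : E → ℂ, AnalyticAt ℂ G x → (∀ᶠ q in 𝓝 x, u q ≠ 0 → f q = u q ^ j * G q) →
      ∀ᶠ q in 𝓝 x, u q = 0 → G q = 0) : Od u x f b := by
  rcases le_or_gt b a with hb | hb
  · exact h.mono hb
  have : ∀ n : ℕ, a + n ≤ b → Od u x f (a + n) := fun n => by
    induction n with
    | zero => simpa using fun _ => h
    | succ n ih =>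
      intro hn
      obtain ⟨G, g1, g2⟩ := ih (by omega)
      obtain ⟨k, k1, k2⟩ := od_one hu g1 hx (H _ (by omega) G g1 g2)
      refine ⟨k, k1, (g2.and k2).mono fun q hq h0 => ?_⟩
      rw [hq.1 h0, hq.2 h0, Nat.cast_succ, ← add_assoc, zpow_add_one₀ h0, zpow_one, mul_assoc]
  obtain ⟨n, rfl⟩ := Int.le.dest hb.le
  exact this n le_rfl

end Pool.Agent.Lib.MP_5c318e_ag.Ex
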