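import Pool.Agent.Lib.MP_5c318e_ag.Z.DDefs
import Pool.Agent.Lib.MP_5c318e_ag.Ex.Od

/-! The order of a tensor at the centre of a chart at a vertical prime divisor. -/

set_option autoImplicit false

namespace Pool.Agent.Lib.MP_5c318e_ag

variable {δ ν K M : Type} [Fintype δ] [DecidableEq δ] [Fintype ν] [DecidableEq ν]
  [Field K] [Algebra ℂ K] [Field M] [Algebra ℂ M] [Algebra K M]

/-- the order of the germ of `U` along `u = 0` is at least `a` -/
def Dat.Og (d : Dat δ K ν M) {κ : Type} [Fintype κ] [DecidableEq κ] {O : ValuationSubring M}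
    {C : Cht δ K} {i0 : δ} {σ : Tr C.O d.B.O} {c0 : Pt C.O} (Ω : OCh d.T.toRel O C i0 σ c0)
    (U : d.Ten κ) (a : ℤ) : Prop :=
  Ex.Od (Ex.uu i0 (κ → ν → ℂ)) (C.D.π c0, fun _ => Ω.s0) (d.pb Ω U) a

end Pool.Agent.Lib.MP_5c318e_ag
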