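import Pool.Agent.Lib.MP_5c318e_ag.Ex.Og
import Pool.Agent.Lib.MP_5c318e_ag.S.OIntA

/-! Orders of tensors: existence, products, restriction to the diagonal. -/

set_option autoImplicit false
set_option linter.unusedSectionVars false

namespace Pool.Agent.Lib.MP_5c318e_ag

open Set Filter Topology Metric Ex

theorem Ex.Od.comp_an {E E' : Type} [NormedAddCommGroup E] [NormedSpace ℂ E]
    [NormedAddCommGroup E'] [NormedSpace ℂ E'] {u : E →L[ℂ] ℂ} {x : E} {f : E → ℂ} {a : ℤ}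
    (h : Od u x f a) {L : E' → E} {u' : E' →L[ℂ] ℂ} {x' : E'} (hL : AnalyticAt ℂ L x')
    (hx : L x' = x) (hu : ∀ q, u (L q) = u' q) : Od u' x' (fun q => f (L q)) a := by
  obtain ⟨H, h1, h2⟩ := h
  subst hx
  refine ⟨fun q => H (L q), h1.comp hL, ?_⟩
  filter_upwards [hL.continuousAt.eventually h2] with q hq h0
  rw [← hu q] at h0 ⊢
  exact hq h0

theorem Ex.sum_blk {β κ ι ρ R : Type} [Fintype β] [DecidableEq β] [Fintype κ] [DecidableEq κ]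
    [Fintype ι] [DecidableEq ι] [Fintype ρ] [CommSemiring R] (e : β × κ ≃ ι) (c : (κ → ρ) → R)
    (t : ι → ρ → R) : ∑ I : ι → ρ, (∏ b, c fun k => I (e (b, k))) * ∏ j, t j (I j) =
      ∏ b, ∑ J : κ → ρ, c J * ∏ k, t (e (b, k)) (J k) := by
  rw [Finset.prod_univ_sum, Fintype.piFinset_univ]
  refine Fintype.sum_equiv ((e.symm.arrowCongr (Equiv.refl ρ)).trans (Equiv.curry β κ ρ)) _ _
    fun I => ?_
  rw [Finset.prod_mul_distrib, ← e.prod_comp, Fintype.prod_prod_type]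
  rfl

variable {δ ν K M : Type} [Fintype δ] [DecidableEq δ] [Fintype ν] [DecidableEq ν]
  [Field K] [Algebra ℂ K] [Field M] [Algebra ℂ M] [Algebra K M]

section och

variable {B : Cht δ K} {T : Rel B ν M} {O : ValuationSubring M} {C : Cht δ K} {i0 : δ}
  {σ : Tr C.O B.O} {c0 : Pt C.O} (Ω : OCh T O C i0 σ c0)

theorem OCh.ball_ev : ∀ᶠ q in 𝓝 (C.D.π c0, Ω.s0), q ∈ ball (C.D.π c0, Ω.s0) Ω.r :=
  ball_mem_nhds _ Ω.rpos

/-- elements of the ring of the chart -/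
theorem OCh.ord_mem {φ : T.X.O} (h0 : φ ≠ 0) : ∃ (k : ℤ) (a : (δ → ℂ) × (ν → ℂ) → ℂ),
    O.valuation (φ : M) = O.valuation Ω.ξ ^ k ∧ AnalyticOnNhd ℂ a (ball (C.D.π c0, Ω.s0) Ω.r) ∧
    (∃ q ∈ ball (C.D.π c0, Ω.s0) Ω.r, q.1 i0 = 0 ∧ a q ≠ 0) ∧
    ∀ q ∈ ball (C.D.π c0, Ω.s0) Ω.r, q.1 i0 ≠ 0 → Ω.Ψ q φ = q.1 i0 ^ k * a q := by
  obtain ⟨k, a, b, h1, h2, -, ⟨q, q1, q2, q3, -⟩, h4, h5⟩ := Ω.ord φ (by simpa using h0)
  obtain rfl := h4 φ.2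
  refine ⟨k, a, h1, h2, ⟨q, q1, q2, q3⟩, fun q hq hu => ?_⟩
  have := (h5 q hq hu one_ne_zero).2
  rwa [Pt.ev_of_mem _ φ.2, Pi.one_apply, div_one] at this

theorem OCh.od_mem (φ : T.X.O) :
    ∃ k, Od (uu i0 (ν → ℂ)) (C.D.π c0, Ω.s0) (fun q => Ω.Ψ q φ) k := by
  rcases eq_or_ne φ 0 with rfl | h0
  · exact ⟨0, by simpa using od_zero 0⟩
  obtain ⟨k, a, -, h2, -, h4⟩ := Ω.ord_mem h0
  exact ⟨k, a, h2 _ (mem_ball_self Ω.rpos), Ω.ball_ev.mono fun q hq hu => h4 q hq hu⟩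

theorem OCh.β_apply {q : (δ → ℂ) × (ν → ℂ)} (hq : q ∈ ball (C.D.π c0, Ω.s0) Ω.r)
    (hu : q.1 i0 ≠ 0) (a : B.O) : Ω.β q.1 a = Ω.Ψ q (T.inc a) := by
  rw [OCh.β, ← Ω.res q hq hu]
  rfl

theorem OCh.od_β (X : Type) [NormedAddCommGroup X] [NormedSpace ℂ X] (s : X) (a : B.O) :
    ∃ k, Od (uu i0 X) (C.D.π c0, s) (fun q => Ω.β q.1 a) k := by
  obtain ⟨k, h⟩ := Ω.od_mem (T.inc a)
  have h' : Od (uu i0 (ν → ℂ)) (C.D.π c0, Ω.s0) (fun q => Ω.β q.1 a) k :=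
    h.congr (Ω.ball_ev.mono fun q hq hu => Ω.β_apply hq hu a)
  exact ⟨k, h'.comp_an (L := fun q : (δ → ℂ) × X => (q.1, Ω.s0)) (x' := (C.D.π c0, s))
    (analyticAt_fst.prod analyticAt_const) rfl fun _ => rfl⟩

theorem OCh.od_jac :
    ∃ k, Od (uu i0 (ν → ℂ)) (C.D.π c0, Ω.s0) (fun q => ((Ω.Ψ q).ev (Jac T.dx Ω.w))⁻¹) k := by
  obtain ⟨j, a, -, h2, h3⟩ := Ω.jac
  exact ⟨-j, od_inv (h2 _ (mem_ball_self Ω.rpos)) (h3 _ (mem_ball_self Ω.rpos)).1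
    (Ω.ball_ev.mono fun q hq hu => ((h3 q hq).2 hu).2)⟩

theorem OCh.slot {κ : Type} [Fintype κ] {f : (δ → ℂ) × (ν → ℂ) → ℂ} {k : ℤ}
    (h : Od (uu i0 (ν → ℂ)) (C.D.π c0, Ω.s0) f k) (j : κ) :
    Od (uu i0 (κ → ν → ℂ)) (C.D.π c0, fun _ => Ω.s0) (fun q => f (q.1, q.2 j)) k :=
  h.comp ((ContinuousLinearMap.fst ℂ _ _).prod
    ((ContinuousLinearMap.proj j).comp (ContinuousLinearMap.snd ℂ (δ → ℂ) (κ → ν → ℂ)))) rfl
    fun _ => rfl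

theorem OCh.zpow_le {a b : ℤ} : O.valuation Ω.ξ ^ a ≤ O.valuation Ω.ξ ^ b ↔ b ≤ a :=
  zpow_le_zpow_iff_right_of_lt_one₀ ((Valuation.pos_iff _).2 Ω.ne) Ω.lt

end och

variable {d : Dat δ K ν M} {κ β ι : Type} [Fintype κ] [DecidableEq κ] [Fintype β] [DecidableEq β]
  [Fintype ι] [DecidableEq ι] {O : ValuationSubring M} {C : Cht δ K} {i0 : δ} {σ : Tr C.O d.B.O}
  {c0 : Pt C.O} {Ω : OCh d.T.toRel O C i0 σ c0}

theorem Dat.exists_og (Ω : OCh d.T.toRel O C i0 σ c0) (U : d.Ten κ) : ∃ a, d.Og Ω U a := by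
  choose k hk using Ω.od_mem
  obtain ⟨l, hl⟩ := Ω.od_jac
  obtain ⟨a, ha⟩ := od_exists_sum (u := uu i0 (κ → ν → ℂ)) (x := (C.D.π c0, fun _ => Ω.s0))
    Finset.univ (F := fun (I : κ → Fin d.r) q =>
      Ω.β q.1 (U I) * ∏ j, Ω.Ψ (q.1, q.2 j) (d.τ (I j))) fun I _ => by
    obtain ⟨b, hb⟩ := Ω.od_β (κ → ν → ℂ) (fun _ => Ω.s0) (U I)
    exact ⟨_, hb.mul (od_prod Finset.univ fun j _ => Ω.slot (hk (d.τ (I j))) j)⟩
  have := ha.mul (od_prod (Finset.univ : Finset κ) fun j _ =>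
    od_prod (Finset.range d.m) fun _ _ => Ω.slot hl j)
  refine ⟨_, this.congr (Eventually.of_forall fun q _ => ?_)⟩
  simp [Dat.pb, div_eq_mul_inv]

theorem Dat.Og.mono {U : d.Ten κ} {a a' : ℤ} (h : d.Og Ω U a) (ha : a' ≤ a) : d.Og Ω U a' :=
  Od.mono h ha

theorem Dat.Og.blk {U : d.Ten κ} {a : ℤ} (h : d.Og Ω U a) (e : β × κ ≃ ι) :
    d.Og Ω (d.blk U e) (Fintype.card β * a) := by
  have := od_prod (u := uu i0 (ι → ν → ℂ)) (x := (C.D.π c0, fun _ => Ω.s0)) Finset.univ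
    (F := fun (b : β) q => d.pb Ω U (q.1, fun k => q.2 (e (b, k)))) (c := fun _ => a) fun b _ =>
    Od.comp h ((ContinuousLinearMap.fst ℂ _ _).prod ((ContinuousLinearMap.pi fun k =>
      ContinuousLinearMap.proj (e (b, k))).comp (ContinuousLinearMap.snd ℂ (δ → ℂ) (ι → ν → ℂ))))
      rfl fun _ => rfl
  rw [Finset.sum_const, nsmul_eq_mul] at this
  refine this.congr (Eventually.of_forall fun q _ => ?_)
  simp only [Dat.pb, Dat.blk, map_prod, Finset.prod_div_distrib]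
  rw [sum_blk e (fun J => Ω.β q.1 (U J)) fun j i => Ω.Ψ (q.1, q.2 j) (d.τ i), ← e.prod_comp,
    Fintype.prod_prod_type]

/-- the diagonal as an element of the ring of the chart -/
noncomputable def Dat.dg (d : Dat δ K ν M) (U : d.Ten κ) : d.T.X.O :=
  ∑ I, d.T.inc (U I) * ∏ j, d.τ (I j)

theorem Dat.dg_coe (U : d.Ten κ) : (d.dg U : M) = d.diag U := by
  simp [Dat.dg, Dat.diag, d.T.inc_eq]

theorem Dat.Og.diag {U : d.Ten κ} {a : ℤ} (h : d.Og Ω U a) (h0 : c0 (C.z i0) = 0) :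
    O.valuation (d.diag U / Jac d.T.dx Ω.w ^ (d.m * Fintype.card κ)) ≤ O.valuation Ω.ξ ^ a := by
  rw [← Dat.dg_coe]
  rcases eq_or_ne (d.dg U) 0 with e | e
  · simp [e]
  obtain ⟨k, A, h1, h2, ⟨q, q1, q2, q3⟩, h4⟩ := Ω.ord_mem e
  obtain ⟨j, A', g1, g2, g3⟩ := Ω.jac
  have hd := Od.comp h ((ContinuousLinearMap.fst ℂ _ _).prod
    (ContinuousLinearMap.pi fun _ : κ => ContinuousLinearMap.snd ℂ (δ → ℂ) (ν → ℂ)))
    (u' := uu i0 (ν → ℂ)) (x' := (C.D.π c0, Ω.s0)) rfl fun _ => rfl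
  have := hd.le_of_eq (k := k - j * (d.m * Fintype.card κ : ℕ))
    (A := fun q => A q / A' q ^ (d.m * Fintype.card κ)) (uu_ne _ _)
    (by simpa [C.π_eq] using h0) (fun q hq => (h2 q hq).div ((g2 q hq).pow _)
      (pow_ne_zero _ (g3 q hq).1)) (fun q hq hu => by
      have e1 : ∑ I, Ω.β q.1 (U I) * ∏ j, Ω.Ψ q (d.τ (I j)) = Ω.Ψ q (d.dg U) := by
        simp only [Dat.dg, map_sum, map_mul, map_prod, Ω.β_apply hq hu]
      have hu' : q.1 i0 ≠ 0 := hu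
      show (∑ I, Ω.β q.1 (U I) * ∏ j, Ω.Ψ q (d.τ (I j))) /
        ∏ _j : κ, (Ω.Ψ q).ev (Jac d.T.dx Ω.w) ^ d.m = q.1 i0 ^ _ * _
      rw [e1, h4 q hq hu, ((g3 q hq).2 hu).2, Finset.prod_const, ← pow_mul, Finset.card_univ,
        mul_pow, zpow_sub₀ hu', zpow_mul, zpow_natCast, div_mul_div_comm]) q1 q2
    (div_ne_zero q3 (pow_ne_zero _ (g3 q q1).1))
  rw [map_div₀, map_pow, h1, g1, ← zpow_natCast, ← zpow_mul, ← zpow_sub₀ ((Valuation.ne_zero_iff _).2 Ω.ne)]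
  exact Ω.zpow_le.2 this

end Pool.Agent.Lib.MP_5c318e_ag
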