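import Pool.Agent.Lib.MP_5c318e_ag.Ex.OrdA
import Pool.Agent.Lib.MP_5c318e_ag.Ex.Div
import Pool.Agent.Lib.MP_5c318e_ag.S.OIntA
import Pool.Agent.Lib.MP_5c318e_ag.D.Ten
import Pool.Agent.Lib.MP_5c318e_ag.D.EndA

/-! Orders of tensors from integral bounds. -/

set_option autoImplicit false

namespace Pool.Agent.Lib.MP_5c318e_ag

open MeasureTheory Set Filter Topology Metric
open scoped ENNReal

namespace ExD

theorem scale {x y z j : ℝ≥0∞} (hx : x ≠ ⊤) (hy : y ≠ ⊤) (hz : z ≠ ⊤) (j0 : j ≠ 0) (j1 : j ≠ ⊤)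
    {m : ℕ} {α β γ : ℝ} (h : m * (α - β - γ) = 2) :
    j ^ (-2 : ℝ) * ((x * j ^ m) ^ α * (y * j ^ m) ^ (-β) * (z * j ^ m) ^ (-γ)) =
      x ^ α * y ^ (-β) * z ^ (-γ) := by
  have jm : j ^ m ≠ ⊤ := ENNReal.pow_ne_top j1
  have e : j ^ (-2 : ℝ) * ((j ^ m) ^ α * (j ^ m) ^ (-β) * (j ^ m) ^ (-γ)) = 1 := by
    simp only [← ENNReal.rpow_natCast, ← ENNReal.rpow_mul, ← ENNReal.rpow_add _ _ j0 j1]
    rw [show -2 + (m * α + m * -β + m * -γ) = 0 by linarith, ENNReal.rpow_zero]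
  rw [ENNReal.mul_rpow_of_ne_top hx jm, ENNReal.mul_rpow_of_ne_top hy jm,
    ENNReal.mul_rpow_of_ne_top hz jm]
  calc _ = j ^ (-2 : ℝ) * ((j ^ m) ^ α * (j ^ m) ^ (-β) * (j ^ m) ^ (-γ)) *
        (x ^ α * y ^ (-β) * z ^ (-γ)) := by ring
    _ = _ := by rw [e, one_mul]

theorem le_pos {t : ℂ} {c u α : ℝ} {b : ℤ} (hc : 0 < c) (hu : 0 < u) (hα : 0 ≤ α)
    (h : c * u ^ b ≤ ‖t‖) : ENNReal.ofReal (c ^ α * u ^ (b * α)) ≤ ‖t‖ₑ ^ α := by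
  rw [Real.rpow_mul hu.le, Real.rpow_intCast, ← Real.mul_rpow hc.le (by positivity),
    ← ENNReal.ofReal_rpow_of_pos (by positivity), ← ofReal_norm]
  exact ENNReal.rpow_le_rpow (ENNReal.ofReal_le_ofReal h) hα

theorem le_neg {t : ℂ} {c u α : ℝ} {b : ℤ} (hc : 0 < c) (hu : 0 < u) (hα : 0 ≤ α)
    (h : ‖t‖ ≤ c * u ^ b) : ENNReal.ofReal (c ^ (-α) * u ^ (b * -α)) ≤ ‖t‖ₑ ^ (-α) := by
  rw [Real.rpow_mul hu.le, Real.rpow_intCast, ← Real.mul_rpow hc.le (by positivity),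
    ← ENNReal.ofReal_rpow_of_pos (by positivity), ← ofReal_norm, ENNReal.rpow_neg,
    ENNReal.rpow_neg, ENNReal.inv_le_inv]
  exact ENNReal.rpow_le_rpow (ENNReal.ofReal_le_ofReal h) hα

end ExD

variable {δ ν K M : Type} [Fintype δ] [DecidableEq δ] [Fintype ν] [DecidableEq ν]
  [Field K] [Algebra ℂ K] [Field M] [Algebra ℂ M] [Algebra K M] [IsScalarTower ℂ K M]
  {d : Dat δ K ν M} {κ : Type} [Fintype κ] [DecidableEq κ]
  {O : ValuationSubring M} {C : Cht δ K} {i0 : δ} {σ : Tr C.O d.B.O} {c0 : Pt C.O}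
  {Ω : OCh d.T.toRel O C i0 σ c0}

/-- the fibre integral in the coordinates of the chart -/
theorem Dat.I3_low (U' U V : d.Ten κ) {α β γ : ℝ} (h : d.m * (α - β - γ) = 2) {y : δ → ℂ}
    (hy : y ∈ ball (C.D.π c0) Ω.r) (hu : y i0 ≠ 0) :
    ∫⁻ s in Set.pi univ fun _ : κ => ball Ω.s0 Ω.r, ‖d.pb Ω U' (y, s)‖ₑ ^ α *
      ‖d.pb Ω U (y, s)‖ₑ ^ (-β) * ‖d.pb Ω V (y, s)‖ₑ ^ (-γ) ≤ d.I3 U' U V α β γ (Ω.β y) := by
  let t : d.Ten κ → (κ → Pt d.T.X.O) → ℂ := fun W p => ∑ I, Ω.β y (W I) * ∏ j, p j (d.τ (I j))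
  have tm : ∀ W, Measurable fun p => ‖t W p‖ₑ := fun W =>
    (continuous_finsetSum _ fun I _ => continuous_const.mul (continuous_finsetProd _ fun j _ =>
      (Pt.continuous_apply _).comp (continuous_apply j))).measurable.enorm
  refine le_trans (le_of_eq ?_) (Ω.fib_pi κ hy hu
    (G := fun p => ‖t U' p‖ₑ ^ α * ‖t U p‖ₑ ^ (-β) * ‖t V p‖ₑ ^ (-γ))
    ((((tm U').pow_const _).mul ((tm U).pow_const _)).mul ((tm V).pow_const _)))
  refine setLIntegral_congr_fun (MeasurableSet.univ_pi fun _ => measurableSet_ball) fun s hs => ?_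
  obtain ⟨j, a, -, -, ha⟩ := Ω.jac
  let J : ℂ := ∏ k, (Ω.Ψ (y, s k)).ev (Jac d.T.dx Ω.w)
  have J0 : J ≠ 0 := Finset.prod_ne_zero_iff.2 fun k _ => by
    have := ha (y, s k) (by rw [← ball_prod_same]; exact ⟨hy, hs k trivial⟩)
    rw [(this.2 hu).2]
    exact mul_ne_zero (zpow_ne_zero _ hu) this.1
  have e : ∀ W, ‖t W fun k => Ω.Ψ (y, s k)‖ₑ = ‖d.pb Ω W (y, s)‖ₑ * ‖J‖ₑ ^ d.m := fun W => by
    rw [← enorm_pow, ← enorm_mul, Dat.pb, Finset.prod_pow, div_mul_cancel₀ _ (pow_ne_zero _ J0)]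
  have e2 : ENNReal.ofReal (∏ k, ‖(Ω.Ψ (y, s k)).ev (Jac d.T.dx Ω.w)‖⁻¹ ^ 2) = ‖J‖ₑ ^ (-2 : ℝ) := by
    rw [Finset.prod_pow, Finset.prod_inv_distrib, ← norm_prod, ← ofReal_norm,
      ENNReal.ofReal_rpow_of_pos (norm_pos_iff.2 J0), Real.rpow_neg (norm_nonneg _), Real.rpow_two,
      inv_pow]
  rw [e, e, e, e2, ExD.scale enorm_ne_top enorm_ne_top enorm_ne_top (by simpa using J0) enorm_ne_top h]

/-- a pointwise lower bound near a point of the chart gives a lower bound for the fibre integral -/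
theorem Dat.I3_ev (U' U V : d.Ten κ) {α β γ : ℝ} (h : d.m * (α - β - γ) = 2)
    {q1 : (δ → ℂ) × (κ → ν → ℂ)} (hq : q1 ∈ ball (C.D.π c0, fun _ : κ => Ω.s0) Ω.r) {c e : ℝ}
    (hc : 0 < c) (hl : ∀ᶠ q in 𝓝 q1, q.1 i0 ≠ 0 → ENNReal.ofReal (c * ‖q.1 i0‖ ^ e) ≤
      ‖d.pb Ω U' q‖ₑ ^ α * ‖d.pb Ω U q‖ₑ ^ (-β) * ‖d.pb Ω V q‖ₑ ^ (-γ)) :
    ∃ c' : ℝ, 0 < c' ∧ ∀ᶠ y in 𝓝 q1.1, y i0 ≠ 0 →
      ENNReal.ofReal (c' * ‖y i0‖ ^ e) ≤ d.I3 U' U V α β γ (Ω.β y) := by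
  obtain ⟨ρ, ρ0, hρ⟩ := Metric.eventually_nhds_iff_ball.1 (hl.and (isOpen_ball.mem_nhds hq))
  have m : ∀ {y s}, y ∈ ball q1.1 ρ → s ∈ ball q1.2 ρ → (y, s) ∈ ball q1 ρ := fun a b => by
    rw [← ball_prod_same q1.1 q1.2]; exact ⟨a, b⟩
  have v0 : 0 < (volume (ball q1.2 ρ)).toReal :=
    ENNReal.toReal_pos (measure_ball_pos _ _ ρ0).ne' measure_ball_lt_top.ne
  refine ⟨(volume (ball q1.2 ρ)).toReal * c, by positivity, ?_⟩
  filter_upwards [ball_mem_nhds q1.1 ρ0] with y hy hu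
  have s1 : ∀ s ∈ ball q1.2 ρ, y ∈ ball (C.D.π c0) Ω.r ∧ s ∈ ball (fun _ : κ => Ω.s0) Ω.r :=
    fun s hs => by
      have : (y, s) ∈ ball (C.D.π c0, fun _ : κ => Ω.s0) Ω.r := (hρ _ (m hy hs)).2
      rwa [← ball_prod_same] at this
  refine le_trans ?_ (Dat.I3_low U' U V h (s1 _ (mem_ball_self ρ0)).1 hu)
  refine le_trans ?_ (lintegral_mono_set (s := ball q1.2 ρ) fun s hs => by
    rw [← ball_pi _ Ω.rpos]; exact (s1 s hs).2)
  refine le_trans (le_of_eq ?_) (setLIntegral_mono' measurableSet_ball fun s hs => (hρ _ (m hy hs)).1 hu)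
  dsimp only
  rw [setLIntegral_const, mul_assoc, ENNReal.ofReal_mul v0.le,
    ENNReal.ofReal_toReal measure_ball_lt_top.ne, mul_comm]

theorem Dat.og_of_Nx (h0 : c0 (C.z i0) = 0) (U : d.Ten κ) {x : ℝ}
    (h : ∀ ε : ℝ, 0 < ε → ∃ A : ℝ, ∀ᶠ y in 𝓝 (C.D.π c0), y i0 ≠ 0 →
      d.Nx U (Ω.β y) ≤ ENNReal.ofReal (A * ‖y i0‖ ^ (2 * x - ε))) {a : ℤ}
    (ha : (a : ℝ) - 1 < d.m * x) : d.Og Ω U a := by
  obtain ⟨a0, h1⟩ := Dat.exists_og Ω U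
  have m0 : (0 : ℝ) < d.m := by exact_mod_cast lt_of_lt_of_le (by norm_num) d.hm
  refine ExD.Ge.raise (v := (Pi.single i0 1, 0)) (by simp) (by simpa [C.π_eq] using h0) h1
    fun b hb hf => ?_
  have hb' : (b : ℝ) ≤ a - 1 := by exact_mod_cast Int.le_sub_one_of_lt hb
  obtain ⟨A, hA⟩ := h ((d.m * x - b) / d.m) (div_pos (by linarith) m0)
  obtain ⟨q1, ⟨z1, c, c0', hc⟩, k1, k2⟩ := (hf.and_eventually
    ((continuousAt_fst.eventually hA.eventually_nhds).and (ball_mem_nhds _ Ω.rpos))).exists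
  obtain ⟨c', c1, hc'⟩ := Dat.I3_ev U U U (α := 2 / d.m) (β := 0) (γ := 0) (by field_simp; ring) k2
    (c := c ^ (2 / d.m : ℝ)) (e := b * (2 / d.m)) (by positivity) (hc.mono fun q hq hu => by
      simpa using ExD.le_pos c0' (norm_pos_iff.2 hu) (by positivity) (hq hu))
  have tu : Tendsto (fun u : ℂ => Function.update q1.1 i0 u) (𝓝[≠] 0) (𝓝 q1.1) := by
    have := (continuous_const.update i0 continuous_id (f := fun _ : ℂ => q1.1)).tendsto 0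
    rw [id, ← show q1.1 i0 = 0 from z1, Function.update_eq_self] at this
    exact this.mono_left (by rw [show q1.1 i0 = 0 from z1]; exact nhdsWithin_le_nhds)
  have := exp_le_of_ev (A := |A|) (α := b * (2 / d.m)) (β := 2 * x - (d.m * x - b) / d.m) c1 (by
    filter_upwards [tu.eventually hc', tu.eventually k1, self_mem_nhdsWithin] with u a1 a2 a3
    simp only [Function.update_self] at a1 a2
    have a4 := (a1 a3).trans (le_trans (le_of_eq (by simp [Dat.I3, Dat.Nx])) (a2 a3))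
    exact (ENNReal.ofReal_le_ofReal_iff (by positivity)).1 (a4.trans (ENNReal.ofReal_le_ofReal
      (mul_le_mul_of_nonneg_right (le_abs_self A) (by positivity)))))
  have e : (2 * x - (d.m * x - b) / d.m - b * (2 / d.m)) * d.m = d.m * x - b := by field_simp; ring
  nlinarith

theorem Dat.Og.step (hσ : σ.h = C.z i0) (h0 : c0 (C.z i0) = 0) {U' U V : d.Ten κ} {a s : ℤ}
    (hU : d.Og Ω U a) (hV : d.Og Ω V s) {γ c x A : ℝ} (hγ : 0 ≤ γ) (hc : 0 ≤ c)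
    (hs : γ + c = 1 - 1 / d.m) {ω : Pt d.B.O → ℝ≥0∞} (hω : Measurable ω) (hA : 0 < A)
    (hlow : ∀ᶠ y in 𝓝 (C.D.π c0), y i0 ≠ 0 → ENNReal.ofReal (A * ‖y i0‖ ^ (2 * x)) ≤
      ENNReal.ofReal (‖y i0‖ ^ (2 * (Ω.μ - 1)) *
        ‖(Ω.β y).ev (Jac d.B.der fun i => (C.z i : K))‖⁻¹ ^ 2) * ω (Ω.β y))
    (h : ∫⁻ y, ω y * d.I3 U' U V 2 (2 * γ) (2 * c) y ∂d.B.D.μ < ⊤) {a' : ℤ}
    (ha : (a' : ℝ) ≤ γ * a + c * s - x) : d.Og Ω U' a' := by
  obtain ⟨a0, h1⟩ := Dat.exists_og Ω U'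
  have m0 : (0 : ℝ) < d.m := by exact_mod_cast lt_of_lt_of_le (by norm_num) d.hm
  refine ExD.Ge.raise (v := (Pi.single i0 1, 0)) (by simp) (by simpa [C.π_eq] using h0) h1
    fun b hb hf => ?_
  have hb' : (b : ℝ) ≤ a' - 1 := by exact_mod_cast Int.le_sub_one_of_lt hb
  obtain ⟨A1, p1, b1⟩ := Ex.Od.bound hU
  obtain ⟨A2, p2, b2⟩ := Ex.Od.bound hV
  obtain ⟨q1, ⟨⟨z1, c1, p3, b3⟩, k3, k4⟩, k1, k2⟩ := ((hf.and_eventually
    (b1.eventually_nhds.and b2.eventually_nhds)).and_eventually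
      ((continuousAt_fst.eventually hlow.eventually_nhds).and (ball_mem_nhds _ Ω.rpos))).exists
  obtain ⟨c', p4, b4⟩ := Dat.I3_ev U' U V (α := 2) (β := 2 * γ) (γ := 2 * c)
    (by rw [show 2 - 2 * γ - 2 * c = 2 * (1 / d.m) by linarith]; field_simp) k2
    (c := c1 ^ (2 : ℝ) * A1 ^ (-(2 * γ)) * A2 ^ (-(2 * c)))
    (e := b * 2 + a * -(2 * γ) + s * -(2 * c)) (by positivity) (by
      filter_upwards [b3, k3, k4] with q e1 e2 e3 hu
      have u0 := norm_pos_iff.2 hu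
      refine le_trans (le_of_eq ?_) (mul_le_mul' (mul_le_mul' (ExD.le_pos p3 u0 zero_le_two (e1 hu))
        (ExD.le_neg p1 u0 (by positivity) (e2 hu))) (ExD.le_neg p2 u0 (by positivity) (e3 hu)))
      rw [← ENNReal.ofReal_mul (by positivity), ← ENNReal.ofReal_mul (by positivity),
        Real.rpow_add u0, Real.rpow_add u0]
      congr 1
      ring)
  have k5 : q1.1 ∈ ball (C.D.π c0) Ω.r := (max_lt_iff.1 k2).1
  have z2 : q1.1 i0 = 0 := z1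
  have k6 : ∀ᶠ y in 𝓝 q1.1, ‖y i0‖ < 1 :=
    (continuous_apply i0).continuousAt.norm.eventually_lt_const (by simp [z2])
  obtain ⟨ρ, ρ0, hρ⟩ := Metric.eventually_nhds_iff_ball.1
    ((k1.and b4).and (k6.and (isOpen_ball.mem_nhds k5)))
  refine (lt_of_le_of_lt ?_ h).ne (ExD.lint_top i0 z2 ρ0 (c := A * c') (by positivity))
  refine le_trans ?_ (Ω.base hσ h0 (hω.mul (d.measurable_I3 U' U V 2 (2 * γ) (2 * c))))
  refine le_trans ?_ (lintegral_mono_set (s := {y ∈ ball q1.1 ρ | y i0 ≠ 0})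
    fun y hy => ⟨(hρ y hy.1).2.2, hy.2⟩)
  refine setLIntegral_mono' (measurableSet_ball.inter
    (isOpen_ne_fun (continuous_apply i0) continuous_const).measurableSet) fun y hy => ?_
  obtain ⟨⟨e1, e2⟩, e3, -⟩ := hρ y hy.1
  have u0 := norm_pos_iff.2 hy.2
  rw [← mul_assoc]
  refine le_trans ?_ (mul_le_mul' (e1 hy.2) (e2 hy.2))
  rw [← ENNReal.ofReal_mul (by positivity), mul_mul_mul_comm, ← Real.rpow_add u0]
  exact ENNReal.ofReal_le_ofReal (mul_le_mul_of_nonneg_left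
    (Real.rpow_le_rpow_of_exponent_ge u0 e3.le (by linarith)) (by positivity))

end Pool.Agent.Lib.MP_5c318e_ag
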