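import Pool.Agent.Lib.MP_5c318e_ag.Ex.VertA
import Pool.Agent.Lib.MP_5c318e_ag.D.Q0
import Pool.Agent.Lib.MP_5c318e_ag.D.Arith
import Pool.Agent.Lib.MP_5c318e_ag.S.OCh

/-! The iteration seen from one vertical prime divisor. -/

set_option autoImplicit false
set_option linter.unusedSectionVars false

namespace Pool.Agent.Lib.MP_5c318e_ag

open MeasureTheory Set Filter Topology Metric Ex
open scoped ENNReal

variable {ε γ ν K M : Type} [Fintype ε] [DecidableEq ε] [Fintype γ] [DecidableEq γ] [Fintype ν]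
  [DecidableEq ν] [Field K] [Algebra ℂ K] [Field M] [Algebra ℂ M] [Algebra K M]
  [IsScalarTower ℂ K M] {d : Dat (ε ⊕ γ) K ν M} {O : ValuationSubring M}

namespace Dat

theorem w_ev (p : Pt d.B.O) (i : ε) : p.ev (d.B.z (Sum.inl i) : K) = d.w p i := by
  rw [p.ev_of_mem (d.B.z _).2, Dat.w, d.B.π_eq]

theorem q_ev (p : Pt d.B.O) (q : MvPolynomial ε ℂ) :
    p.ev (MvPolynomial.aeval (fun i => (d.B.z (Sum.inl i) : K)) q) =
      MvPolynomial.eval (d.w p) q := by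
  have e : MvPolynomial.aeval (fun i => (d.B.z (Sum.inl i) : K)) q =
      (MvPolynomial.aeval (fun i => d.B.z (Sum.inl i)) q : d.B.O) :=
    (MvPolynomial.comp_aeval_apply (fun i => d.B.z (Sum.inl i)) d.B.O.val q).symm
  rw [e, p.ev_of_mem (Subtype.property _), ← MvPolynomial.aeval_eq_eval]
  refine (MvPolynomial.comp_aeval_apply (fun i => d.B.z (Sum.inl i)) p.hom q).trans ?_
  congr 2
  funext i
  rw [Dat.w, d.B.π_eq]
  rfl

variable {v : ValuationSubring K} {b : Bdy d.B v}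

theorem z_le_one {c0 : Pt b.C.O} (h0 : c0 (b.C.z b.i0) = 0) :
    ∀ᶠ p in b.near c0, 0 < ‖p.ev b.z‖ ∧ ‖p.ev b.z‖ ≤ 1 :=
  (b.tendsto_norm_z h0).eventually (Ioc_mem_nhdsGT one_pos)

theorem w_low {N : ℕ} (hN : ∀ i, b.Ge (d.B.z (Sum.inl i)) (-N)) {x : ℝ} (hx : 0 ≤ x) :
    ∀ᶠ c0 in b.gen, ∃ κ : ℝ, 0 < κ ∧ ∀ᶠ p in b.near c0,
      κ * ‖p.ev b.z‖ ^ (2 * (x * N)) ≤ (1 + ‖d.w p‖) ^ (-(2 * x)) := by
  filter_upwards [b.gen_z, eventually_all.2 fun i => (hN i).bound] with c0 h0 h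
  choose κ k0 hκ using h
  have s0 : 0 ≤ ∑ i, κ i := Finset.sum_nonneg fun i _ => (k0 i).le
  refine ⟨(1 + ∑ i, κ i) ^ (-(2 * x)), by positivity, ?_⟩
  filter_upwards [z_le_one h0, eventually_all.2 hκ] with p ⟨z0, z1⟩ hp
  have o : 1 ≤ ‖p.ev b.z‖ ^ (-(N : ℤ)) := one_le_zpow_of_nonpos₀ z0 z1 (by omega)
  have w1 : ‖d.w p‖ ≤ (∑ i, κ i) * ‖p.ev b.z‖ ^ (-(N : ℤ)) :=
    (pi_norm_le_iff_of_nonneg (by positivity)).2 fun i => by
      rw [← w_ev]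
      exact (hp i).2.trans (mul_le_mul_of_nonneg_right
        (Finset.single_le_sum (fun j _ => (k0 j).le) (Finset.mem_univ i)) (by positivity))
  have := Real.rpow_le_rpow_of_nonpos (x := 1 + ‖d.w p‖) (by positivity)
    (show _ ≤ (1 + ∑ i, κ i) * ‖p.ev b.z‖ ^ (-(N : ℤ)) by linarith) (z := -(2 * x)) (by linarith)
  rw [Real.mul_rpow (by positivity) (by positivity), ← Real.rpow_intCast, ← Real.rpow_mul z0.le]
    at this
  convert this using 3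
  push_cast
  ring

theorem Triv.ge (h : d.Triv v) (i : ε) : b.Ge (d.B.z (Sum.inl i)) 0 := by
  have := h (MvPolynomial.X i) (MvPolynomial.X_ne_zero i)
  rw [MvPolynomial.aeval_X] at this
  exact b.ge_val.2 (by simp [this])

theorem Triv.tube (h : d.Triv v) {q : MvPolynomial ε ℂ} (hq : q ≠ 0) : ∀ᶠ c0 in b.gen,
    ∃ Q : Set (ε → ℂ), IsCompact Q ∧ (∀ a ∈ Q, MvPolynomial.eval a q ≠ 0) ∧
      ∀ᶠ p in b.near c0, d.w p ∈ Q := by
  filter_upwards [b.gen_z, b.gen_unit (h q hq),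
    eventually_all.2 fun i => b.gen_reg (b.ge_zero_iff.1 (h.ge i))] with c0 h0 h1 h2
  have := b.near_neBot h0
  have t : Tendsto d.w (b.near c0) (𝓝 fun i => c0.ev (d.B.z (Sum.inl i) : K)) :=
    tendsto_pi_nhds.2 fun i => by simpa only [w_ev] using b.tendsto_ev (h2 i)
  have c := MvPolynomial.continuous_eval q
  have t1 := b.tendsto_ev h1.1
  simp only [q_ev] at t1
  have e := tendsto_nhds_unique ((c.tendsto _).comp t) t1
  obtain ⟨ρ, ρ0, hρ⟩ := nhds_basis_closedBall.eventually_iff.1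
    (c.continuousAt.eventually_ne (e ▸ h1.2))
  exact ⟨_, isCompact_closedBall _ ρ, fun a ha => hρ ha, t.eventually (closedBall_mem_nhds _ ρ0)⟩

variable {g : d.B.O} {a1 : ℕ}

/-- two sided bounds near a general point of a horizontal divisor -/
theorem FlatOut.near (Fl : d.FlatOut g a1) (h : d.Triv v) : ∀ᶠ c0 in b.gen, ∃ A : ℝ,
    ∀ᶠ p in b.near c0, ‖p g‖ ^ 2 * d.Dd p ^ (d.m * a1) ≤ A ∧
      1 ≤ A * (‖p g‖ ^ 2 * d.Dd p ^ (d.m * a1)) ∧ ∀ j, d.Nx (Fl.S j) p ≤ ENNReal.ofReal A := by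
  filter_upwards [h.tube (q := Fl.q) fun e => Fl.q0 (by simp [e])] with c0 ⟨Q, h1, h2, h3⟩
  obtain ⟨A, hA⟩ := Fl.tube Fl.c0 Fl.c0pos le_rfl Q h1 h2
  obtain ⟨A', hA'⟩ := FlatOut.Nx_le d Fl h1 h2
  refine ⟨max A A', h3.mono fun p hp => ⟨(hA p hp).1.trans (le_max_left _ _),
    (hA p hp).2.1.trans (mul_le_mul_of_nonneg_right (le_max_left _ _) ?_), fun j =>
    (hA' p hp j).trans (ENNReal.ofReal_le_ofReal (le_max_right _ _))⟩⟩
  have := d.Dd_pos p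
  positivity

theorem FlatOut.ge (Fl : d.FlatOut g a1) (hg : IsUnit g) (h : d.Triv v) {P : d.B.O} {l : ℕ}
    (hP : d.Ov b.C b.i0 b.τ P (d.m * a1 * l : ℕ) 0) : b.Ge (P / g ^ l) 0 := by
  refine b.ol (s := -(1 / 2)) (Eventually.frequently ?_) (by norm_num)
  filter_upwards [b.gen_z, Fl.near h, hP.near] with c0 h0 ⟨A, hA⟩ h1
  obtain ⟨A', hA'⟩ := h1 1 one_pos
  refine ⟨√(|A| ^ l * |A'|), ?_⟩
  filter_upwards [z_le_one h0, hA, hA'] with p ⟨z0, _⟩ ⟨_, h2, _⟩ h3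
  have g0 : p g ≠ 0 := (hg.map p).ne_zero
  have D0 := d.Dd_pos p
  have e : p.ev (g : K) = p g := p.ev_of_mem g.2
  rw [(p.ev_div (p.reg_coe P) (p.ev_pow (p.reg_coe g) l).1 (by
    rw [(p.ev_pow (p.reg_coe g) l).2, e]; exact pow_ne_zero _ g0)).2,
    (p.ev_pow (p.reg_coe g) l).2, e, norm_div, norm_pow]
  have g1 : 0 < ‖p g‖ := norm_pos_iff.2 g0
  refine (pow_le_pow_iff_left₀ (by positivity) (by positivity) two_ne_zero).1 ?_
  rw [mul_pow, Real.sq_sqrt (by positivity), div_pow, div_le_iff₀ (by positivity),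
    ← Real.rpow_natCast (_ ^ (-(1 / 2) : ℝ)), ← Real.rpow_mul z0.le]
  rw [Real.rpow_natCast] at h3
  have h4 : 1 ≤ (|A| * (‖p g‖ ^ 2 * d.Dd p ^ (d.m * a1))) ^ l :=
    one_le_pow₀ (h2.trans (by gcongr; exact le_abs_self A))
  have h5 : ‖p.ev (P : K)‖ ^ 2 * d.Dd p ^ (d.m * a1 * l) ≤
      |A'| * ‖p.ev b.z‖ ^ (-(1 / 2) * (2 : ℕ) : ℝ) := by
    refine h3.trans ?_
    rw [show (2 * 0 - 1 : ℝ) = -(1 / 2) * (2 : ℕ) by norm_num]
    gcongr
    exact le_abs_self A'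
  calc _ ≤ ‖p.ev (P : K)‖ ^ 2 * (|A| * (‖p g‖ ^ 2 * d.Dd p ^ (d.m * a1))) ^ l :=
        le_mul_of_one_le_right (by positivity) h4
    _ = |A| ^ l * (‖p g‖ ^ l) ^ 2 * (‖p.ev (P : K)‖ ^ 2 * d.Dd p ^ (d.m * a1 * l)) := by ring
    _ ≤ |A| ^ l * (‖p g‖ ^ l) ^ 2 * (|A'| * ‖p.ev b.z‖ ^ (-(1 / 2) * (2 : ℕ) : ℝ)) := by gcongr
    _ = _ := by ring

/-- a chain of extension steps -/
def Chain (d : Dat (ε ⊕ γ) K ν M) (g : d.B.O) {κ : Type} [Fintype κ] [DecidableEq κ] (θ t c : ℝ)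
    (V : d.Ten κ) (U : ℕ → d.Ten κ) : Prop :=
  ∀ i, ∫⁻ y, d.wt g θ y *
    ENNReal.ofReal ((1 + ‖d.w y‖) ^ (-(2 * (Fintype.card ε + 1)) : ℝ)) *
      d.I3 (U (i + 1)) (U i) V 2 (2 * t) (2 * c) y ∂d.B.D.μ < ⊤

/-- one step, in general position -/
theorem gen_step (hg : IsUnit g) {N : ℕ} (hN : ∀ i, b.Ge (d.B.z (Sum.inl i)) (-N)) {e a : ℤ}
    (he : v.valuation (d.η / b.J ^ d.k) = v.valuation b.z ^ e) (ha : b.Ge g a) :
    ∀ᶠ c0 in b.gen, ∀ (Ω : OCh d.T.toRel O b.C b.i0 b.τ c0) (s : ℤ), d.Og Ω d.sg s →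
      ∀ (κ β : Type) [Fintype κ] [DecidableEq κ] [Fintype β] [DecidableEq β]
        (e' : β × Fin d.r ≃ κ) (θ t c : ℝ), 0 ≤ θ → 0 ≤ t → 0 ≤ c → t + c = 1 - 1 / d.m →
        ∀ U : ℕ → d.Ten κ, d.Chain g θ t c (d.blk d.sg e') U → ∀ i (x x' : ℤ), d.Og Ω (U i) x →
        (x' : ℝ) ≤ t * x + (c * Fintype.card β * s + θ * Ω.μ * a + 1 -
          Ω.μ * (1 + e / d.k + (Fintype.card ε + 1) * N)) → d.Og Ω (U (i + 1)) x' := by
  filter_upwards [b.gen_z, b.asym he, ha.bound,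
    w_low hN (x := Fintype.card ε + 1) (by positivity)] with c0 h0 ⟨k1, _, p1, _, h1⟩ ⟨k2, p2, h2⟩
    ⟨k3, p3, h3⟩ Ω s hs κ β _ _ _ _ e' θ t c hθ ht hc htc U hU i x x' hx hx'
  obtain ⟨A, A0, hA⟩ := Dat.wt_low (Ω := Ω) h0 hg hθ p1 p2 p3 (h1.mono fun p hp => hp.2.1)
    (h2.mono fun p hp => hp.2) h3
  have cw : Continuous d.w := continuous_pi fun i => (continuous_apply _).comp d.B.D.cont_π
  have cη := (Pt.continuous_apply d.η).measurable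
  have cg := (Pt.continuous_apply g).measurable
  refine Dat.Og.step b.hτ h0 hx (hs.blk e') ht hc htc (ω := fun y => d.wt g θ y *
    ENNReal.ofReal ((1 + ‖d.w y‖) ^ (-(2 * (Fintype.card ε + 1)) : ℝ))) ?_ A0 hA (hU i) ?_
  · exact ((cη.enorm.pow_const _).mul (cg.enorm.pow_const _)).mul
      ((measurable_const.add cw.measurable.norm).pow_const _).ennreal_ofReal
  · push_cast
    linarith

theorem lim_le {t q m μ L A : ℝ} {X : ℤ} (hq : t + q = 1) (hm : 0 < m) (h1 : 1 / m ≤ q)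
    (hL : 0 ≤ μ * L) (hX : m * (μ * L) + 1 ≤ X) :
    A - X ≤ (q * A + 1 - μ * L - 1) / (1 - t) - 1 := by
  have q0 : 0 < q := lt_of_lt_of_le (by positivity) h1
  have h2 : 1 ≤ m * q := by rwa [div_le_iff₀' hm] at h1
  rw [show 1 - t = q by linarith, le_sub_iff_add_le, le_div_iff₀ q0]
  nlinarith [mul_le_mul_of_nonneg_left h2 hL, mul_le_mul_of_nonneg_left hX q0.le]

/-- regularity at one vertical prime divisor -/
theorem vert (hO : IsDivisorial ℂ M O) (hv : ¬ ∀ c : K, algebraMap K M c ∈ O)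
    (b : Bdy d.B (O.comap (algebraMap K M))) (hg : IsUnit g) (ha : 0 < a1) (Fl : d.FlatOut g a1)
    {N l n : ℕ} (hl : 0 < l) {P : d.B.O} (hP : P ≠ 0)
    (hN : ∀ i, b.Ge (d.B.z (Sum.inl i)) (-N))
    (hn : d.m * (1 + (Fintype.card ε + 1) * N) + 1 + N ≤ n)
    (pay : d.E0 b.C (O.comap (algebraMap K M)) → d.Ov b.C b.i0 b.τ P (d.m * a1 * l : ℕ) 0 ∧
      (¬ d.Triv (O.comap (algebraMap K M)) → d.Ov b.C b.i0 b.τ P (d.m * a1 * l : ℕ) n)) :
    ∃ j0 : ℕ, ∀ (κ β β' : Type) [Fintype κ] [DecidableEq κ] [Fintype β] [DecidableEq β]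
      [Fintype β'] [DecidableEq β'] (e : β × Fin Fl.n ≃ κ) (e' : β' × Fin d.r ≃ κ) (t c : ℝ),
      0 ≤ t → 0 ≤ c → t + c = 1 - 1 / d.m → c * Fintype.card β' = (1 - t) * a1 * l →
      ∀ j, j0 ≤ j → d.m * Fintype.card κ = d.k * (j + 1) → ∀ (i0 : Fin Fl.s) (U : ℕ → d.Ten κ),
      U 0 = d.blk (Fl.S i0) e → d.Chain g ((1 - t) * l) t c (d.blk d.sg e') U →
      ∀ᶠ i in atTop, ∀ a : K, (a = 1 ∨ ∃ i, a = d.B.z (Sum.inl i)) → ∀ η1, Plu d.B.der d.k η1 →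
        RegI d.T.X.der (d.m * Fintype.card κ)
          (d.diag (U i) * algebraMap K M (P / g ^ l * a * d.η ^ j * η1)) O := by
  have m0 : (0 : ℝ) < d.m := by have := d.hm; positivity
  have k0 : (0 : ℝ) < d.k := by have := d.hk; positivity
  have g0 : (g : K) ≠ 0 := fun e => hg.ne_zero (Subtype.ext e)
  have η0 : (d.η : K) ≠ 0 := fun e => d.unit.ne_zero (Subtype.ext e)
  obtain ⟨μ, ξ, w, e0, he0, hΩ⟩ := exists_och d.T.toRel hO hv b.cen b.τ b.hτ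
  have G1 : ∀ᶠ c0 in b.gen, c0 (b.C.z b.i0) = 0 ∧
      ∃ Ω : OCh d.T.toRel O b.C b.i0 b.τ c0, Ω.μ = μ :=
    ⟨e0, (b.val_iff e0).2 he0, fun c0 h0 h1 => ⟨h0, (hΩ c0 h0 h1).imp fun _ h => h.1⟩⟩
  obtain ⟨e, he⟩ := b.exists_ord (div_ne_zero η0 (pow_ne_zero d.k b.J_ne))
  obtain ⟨vg, hvg⟩ := b.exists_ord g0
  obtain ⟨vP, hvP⟩ := b.exists_ord (g := P) fun e => hP (Subtype.ext e)
  have e0 : 0 ≤ e := (b.ge_iff he).1
    (b.ge_zero_iff.2 ((div_pow_mem_iff b.J_ne).2 (d.plu.le_adp b.cen.adp)))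
  have gE : b.Ge (d.η / b.J ^ d.k) e := (b.ge_iff he).2 le_rfl
  have gg : b.Ge g vg := (b.ge_iff hvg).2 le_rfl
  have g1 : ∀ x : ℤ, x ≤ 0 → b.Ge 1 x := fun x hx => (b.ge_zero_iff.2 (one_mem _)).mono hx
  have gP : b.Ge (P / g ^ l) (vP - l * vg) := b.ge_val.2 (by
    rw [map_div₀, map_pow, hvP, hvg, ← zpow_natCast, ← zpow_mul, ← zpow_sub₀ b.val_pos.ne',
      mul_comm])
  have gA : ∀ a : K, (a = 1 ∨ ∃ i, a = d.B.z (Sum.inl i)) → b.Ge a (-N) := by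
    rintro _ (rfl | ⟨i, rfl⟩)
    exacts [g1 _ (by omega), hN i]
  have lim : ∀ (c0 : Pt b.C.O) (Ω : OCh d.T.toRel O b.C b.i0 b.τ c0) (s X : ℤ) (κ β' : Type)
      [Fintype κ] [DecidableEq κ] [Fintype β'] (t c : ℝ) (U : ℕ → d.Ten κ), 0 ≤ t → 0 ≤ c →
      t + c = 1 - 1 / d.m → c * Fintype.card β' = (1 - t) * a1 * l →
      d.m * (Ω.μ * (1 + e / d.k + (Fintype.card ε + 1) * N : ℝ)) + 1 ≤ X →
      (∀ i (x x' : ℤ), d.Og Ω (U i) x → (x' : ℝ) ≤ t * x + (c * Fintype.card β' * s +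
        (1 - t) * l * Ω.μ * vg + 1 - Ω.μ * (1 + e / d.k + (Fintype.card ε + 1) * N)) →
        d.Og Ω (U (i + 1)) x') → ∀ᶠ i in atTop, d.Og Ω (U i) (l * (a1 * s + Ω.μ * vg) - X) := by
    intro c0 Ω s X κ β' _ _ _ t c U ht hc htc hβ hX H
    obtain ⟨a0, h0⟩ := d.exists_og Ω (U 0)
    have : 0 < 1 / (d.m : ℝ) := by positivity
    refine iter_lim (P := fun i x => d.Og Ω (U i) x) ht (by linarith) h0 H ?_
    have e1 : (0 : ℝ) ≤ e := by exact_mod_cast e0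
    have := lim_le (t := t) (q := 1 - t) (A := l * (a1 * s + Ω.μ * vg)) (by ring) m0 (by linarith)
      (by positivity) hX
    push_cast
    convert this using 5
    rw [hβ]
    ring
  have tl : ∀ t c : ℝ, 0 ≤ c → t + c = 1 - 1 / d.m → 0 ≤ (1 - t) * l := fun t c hc h => by
    have : 0 < 1 / (d.m : ℝ) := by positivity
    exact mul_nonneg (by linarith) l.cast_nonneg
  by_cases hA : 2 ≤ μ ∨ 1 ≤ e
  · obtain ⟨c0, ⟨h0, Ω, rfl⟩, hs⟩ := (G1.and (gen_step (O := O) hg hN he gg)).exists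
    obtain ⟨s, h1⟩ := d.exists_og Ω d.sg
    set X := ⌈d.m * (Ω.μ * (1 + e / d.k + (Fintype.card ε + 1) * N : ℝ)) + 1⌉
    refine ⟨(l * (a1 * s + Ω.μ * vg) - X + Ω.μ * (vP - l * vg + -N)).natAbs,
      fun κ β β' _ _ _ _ _ _ e1 e2 t c ht hc htc hβ j hj hq i0 U _ hU => ?_⟩
    filter_upwards [lim c0 Ω s X κ β' t c U ht hc htc hβ (Int.le_ceil _)
      (hs Ω s h1 κ β' e2 _ t c (tl t c hc htc) ht hc htc U hU)] with i hi a h2 η1 h3
    refine hi.regI h0 (gP.mul (gA a h2)) gE hq h3 ?_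
    have μ1 : (1 : ℤ) ≤ Ω.μ := by exact_mod_cast Ω.pos
    have : (j : ℤ) ≤ Ω.μ * (e * j) + ((Ω.μ - 1) * (d.m * Fintype.card κ) : ℕ) := by
      rcases hA with h | h
      · have h4 : j ≤ (Ω.μ - 1) * (d.m * Fintype.card κ) := by
          rw [hq]
          exact (Nat.le_succ j).trans ((Nat.le_mul_of_pos_left _ d.hk).trans
            (Nat.le_mul_of_pos_left _ (by omega)))
        have : 0 ≤ Ω.μ * (e * j) := by positivity
        omega
      · have h4 : (j : ℤ) ≤ Ω.μ * (e * j) := by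
          nlinarith [mul_le_mul μ1 h zero_le_one (by omega), Int.natCast_nonneg j]
        omega
    rw [mul_add _ _ (e * j)]
    omega
  obtain rfl : e = 0 := by omega
  have hE : d.E0 b.C (O.comap (algebraMap K M)) := he.trans (zpow_zero _)
  refine ⟨0, fun κ β β' _ _ _ _ _ _ e1 e2 t c ht hc htc hβ j _ hq i0 U hU0 hU => ?_⟩
  by_cases hT : d.Triv (O.comap (algebraMap K M))
  · obtain ⟨c0, ⟨⟨⟨h0, Ω, hμ⟩, hs⟩, A, hA'⟩, k1, _, p1, _, h4⟩ := (((G1.and (gen_step (O := O) (N := 0)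
      hg (fun i => by simpa using hT.ge i) he gg)).and (Fl.near hT)).and (b.asym hvg)).exists
    have μ1 : Ω.μ = 1 := by have := Ω.pos; omega
    obtain ⟨s, h1, h2⟩ := Dat.og_sg (Ω := Ω) (n := 0) h0 ha p1 (h4.mono fun p hp => hp.2.1)
      fun ε hε => ⟨|A|, by
        filter_upwards [z_le_one h0, hA'] with p ⟨z0, z1⟩ hp
        rw [Real.rpow_natCast, p.ev_of_mem g.2]
        exact (hp.1.trans (le_abs_self A)).trans (le_mul_of_one_le_right (abs_nonneg A)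
          (Real.one_le_rpow_of_pos_of_le_one_of_nonpos z0 z1 (by linarith)))⟩
    have h3 : d.Og Ω (Fl.S i0) 0 := Dat.og_of_Nx h0 _ (x := 0) (fun ε hε => ⟨|A|, by
      filter_upwards [Ω.near_β h0 ((z_le_one h0).and hA')] with y hy hu
      obtain ⟨⟨⟨z0, z1⟩, hp⟩, e3⟩ := hy hu
      rw [e3, μ1, pow_one] at z0 z1
      exact (hp.2.2 i0).trans (ENNReal.ofReal_le_ofReal ((le_abs_self A).trans
        (le_mul_of_one_le_right (abs_nonneg A)
          (Real.one_le_rpow_of_pos_of_le_one_of_nonpos z0 z1 (by linarith)))))⟩) (by simp)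
    refine Eventually.of_forall fun i a h5 η1 h6 => ?_
    have h7 : d.Og Ω (U i) 0 := iter_nonneg (P := fun i x => d.Og Ω (U i) x) ht ?_
      (by simpa [hU0] using h3.blk e1) (hs Ω s h1 κ β' e2 _ t c (tl t c hc htc) ht hc htc U hU) i
    · have h8 : b.Ge a 0 := by
        rcases h5 with rfl | ⟨i, rfl⟩
        exacts [g1 0 le_rfl, hT.ge i]
      exact h7.regI h0 ((Fl.ge hg hT (pay hE).1).mul h8) gE hq h6 (by simp [μ1])
    · have := mul_nonneg (tl t c hc htc) (show (0 : ℝ) ≤ a1 * s + Ω.μ * vg by linarith)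
      rw [hβ]
      simp only [μ1, Nat.cast_one, Nat.cast_zero, Int.cast_zero, zero_div, mul_zero, add_zero,
        mul_one, one_mul] at this ⊢
      nlinarith
  · obtain ⟨c0, ⟨⟨⟨h0, Ω, -⟩, hs⟩, hov⟩, k1, _, p1, _, h4⟩ := (((G1.and (gen_step (O := O)
      hg hN he gg)).and ((pay hE).2 hT).near).and (b.asym hvP)).exists
    obtain ⟨s, h1, h2⟩ := Dat.og_sg (Ω := Ω) (L := a1 * l) h0 (by positivity) p1
      (h4.mono fun p hp => hp.2.1) (by simpa only [mul_assoc] using hov)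
    filter_upwards [lim c0 Ω s (d.m * (Ω.μ * (1 + (Fintype.card ε + 1) * N)) + 1) κ β' t c U ht hc
      htc hβ (by simp) (hs Ω s h1 κ β' e2 _ t c (tl t c hc htc) ht hc htc U hU)] with i hi a h5 η1 h6
    refine hi.regI h0 (gP.mul (gA a h5)) gE hq h6 ?_
    have μ1 : (1 : ℤ) ≤ Ω.μ := by exact_mod_cast Ω.pos
    have h7 : (Ω.μ : ℤ) * n ≤ (a1 * l : ℕ) * s + Ω.μ * vP := by exact_mod_cast h2
    have h8 : (d.m : ℤ) * (1 + (Fintype.card ε + 1) * N) + 1 + N ≤ n := by exact_mod_cast hn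
    have h9 := mul_le_mul_of_nonneg_left h8 (show (0 : ℤ) ≤ Ω.μ by omega)
    have : (0 : ℤ) ≤ ((Ω.μ - 1 : ℕ) : ℤ) * (d.m * Fintype.card κ) := by positivity
    push_cast at h7 ⊢
    nlinarith

end Dat

end Pool.Agent.Lib.MP_5c318e_ag
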