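import Pool.Agent.Lib.MP_5c318e_ag.Ex.OrdB
import Pool.Agent.Lib.MP_5c318e_ag.Z.Bdy
import Pool.Agent.Lib.MP_5c318e_ag.D.Bas
import Pool.Agent.Lib.MP_5c318e_ag.D.Vrt

/-! Estimates in the chart at one vertical prime divisor. -/

set_option autoImplicit false
set_option linter.unusedSectionVars false

namespace Pool.Agent.Lib.MP_5c318e_ag

open MeasureTheory Set Filter Topology Metric Ex
open scoped ENNReal

variable {δ ν K M : Type} [Fintype δ] [DecidableEq δ] [Fintype ν] [DecidableEq ν]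
  [Field K] [Algebra ℂ K] [Field M] [Algebra ℂ M] [Algebra K M] [IsScalarTower ℂ K M]

/-- a finite set of vertical prime divisors has to be looked at -/
theorem Rel.plu_of_fin {B : Cht δ K} (T : Rel B ν M) (hX : SmoothModel ℂ M) :
    ∃ V : Finset (ValuationSubring M),
      (∀ O ∈ V, IsDivisorial ℂ M O ∧ ¬ ∀ c : K, algebraMap K M c ∈ O) ∧
      ∀ (q : ℕ) (Φ : M) (g : K), Φ ∈ T.X.O → g ∈ B.O → Plu T.dx q Φ →
        (∀ O ∈ V, RegI T.X.der q (Φ * algebraMap K M g) O) →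
        Plu T.X.der q (Φ * algebraMap K M g) := by
  obtain ⟨Pr, h1, h2, h3⟩ := hX.primes T.X.dual
  obtain ⟨s, hs⟩ := (Subalgebra.fg_iff_finiteType T.X.O).2 T.X.ft
  have hf : {O | (O ∈ ⋃ g ∈ s, {O ∈ Pr | g ∉ O}) ∧ ¬ ∀ c : K, algebraMap K M c ∈ O}.Finite :=
    (s.finite_toSet.biUnion fun g _ => h3 g).subset fun O hO => hO.1
  refine ⟨hf.toFinset, fun O hO => ?_, fun q Φ g hΦ hg hp H => h2 _ _ fun O hO => ?_⟩
  · obtain ⟨a, b⟩ := hf.mem_toFinset.1 hO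
    obtain ⟨_, _, a⟩ := mem_iUnion₂.1 a
    exact ⟨h1 O a.1, b⟩
  by_cases hv : ∀ c : K, algebraMap K M c ∈ O
  · exact relReg_horizontal B.dual T.dual T.dualX hp (h1 O hO) hv g
  by_cases hb : ∀ a ∈ s, a ∈ O
  · have hle : ∀ a ∈ T.X.O, a ∈ O := fun a ha => by
      rw [← hs] at ha
      exact Algebra.adjoin_induction hb (h1 O hO).const (fun _ _ _ _ => add_mem)
        (fun _ _ _ _ => mul_mem) ha
    refine ⟨_, fun j => hle _ (T.X.z j).2, _, hle _ (mul_mem hΦ ?_), by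
      rw [T.X.dual.jac_one, one_pow, mul_one]⟩
    exact T.inc_eq ⟨g, hg⟩ ▸ (T.inc ⟨g, hg⟩).2
  · push Not at hb
    obtain ⟨a, ha, hb⟩ := hb
    exact H O (hf.mem_toFinset.2 ⟨mem_iUnion₂.2 ⟨a, ha, hO, hb⟩, hv⟩)

theorem OCh.near_β {B : Cht δ K} {T : Rel B ν M} {O : ValuationSubring M} {v : ValuationSubring K}
    {b : Bdy B v} {c0 : Pt b.C.O} (Ω : OCh T O b.C b.i0 b.τ c0) (h0 : c0 (b.C.z b.i0) = 0)
    {Q : Pt B.O → Prop} (h : ∀ᶠ p in b.near c0, Q p) : ∀ᶠ y in 𝓝 (b.C.D.π c0), y b.i0 ≠ 0 →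
      Q (Ω.β y) ∧ ‖(Ω.β y).ev b.z‖ = ‖y b.i0‖ ^ Ω.μ := by
  have t : Tendsto (pw b.i0 Ω.μ) (𝓝 (b.C.D.π c0)) (𝓝 (b.C.D.π c0)) := by
    have := (OI.continuous_pw b.i0 Ω.μ).tendsto (b.C.D.π c0)
    rwa [OI.pw_zero Ω.pos (by rw [b.C.π_eq]; exact h0)] at this
  filter_upwards [t.eventually (Bdy.near_iff.1 h), ball_mem_nhds _ Ω.rpos] with y h1 h2 h3
  have h4 : pw b.i0 Ω.μ y b.i0 ≠ 0 := by
    rw [OI.pw_self]
    exact pow_ne_zero _ h3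
  refine ⟨h1 h4, ?_⟩
  have := Bdy.Hm_z (b := b) (c0 := c0) ⟨Ω.pw_tgt h0 h2, h4⟩
  rw [OI.pw_self] at this
  rw [← norm_pow, ← this]
  rfl

variable {d : Dat δ K ν M} {O : ValuationSubring M}

theorem Dat.Ov.near {v : ValuationSubring K} {b : Bdy d.B v} {g : K} {T n : ℝ}
    (h : d.Ov b.C b.i0 b.τ g T n) : ∀ᶠ c0 in b.gen, ∀ ε : ℝ, 0 < ε → ∃ A : ℝ,
      ∀ᶠ p in b.near c0, ‖p.ev g‖ ^ 2 * d.Dd p ^ T ≤ A * ‖p.ev b.z‖ ^ (2 * n - ε) := by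
  obtain ⟨e, he, H⟩ := h
  refine ⟨e, (b.val_iff e).2 he, fun c0 h0 h1 ε hε => ?_⟩
  obtain ⟨A, hA⟩ := H c0 h0 h1 ε hε
  refine ⟨A, b.mem_near.2 (hA.mono fun c hc hz => ?_)⟩
  rw [b.ev_z hz]
  exact hc hz

theorem Dat.Nx_sg (d : Dat δ K ν M) (y : Pt d.B.O) : d.Nx d.sg y = ENNReal.ofReal (d.Dd y) := by
  rw [← d.nD_eq]
  simp only [Dat.Nx, d.tev_sg, N.nD]

variable {v : ValuationSubring K} {b : Bdy d.B v} {c0 : Pt b.C.O}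
  {Ω : OCh d.T.toRel O b.C b.i0 b.τ c0}

/-- the order of the determinant from an upper bound for `D` -/
theorem Dat.og_sg (h0 : c0 (b.C.z b.i0) = 0) {P : K} {a : ℤ} {κ1 n : ℝ} {L : ℕ} (hL : 0 < L)
    (h1 : 0 < κ1) (h2 : ∀ᶠ p in b.near c0, κ1 * ‖p.ev b.z‖ ^ a ≤ ‖p.ev P‖)
    (h3 : ∀ ε : ℝ, 0 < ε → ∃ A : ℝ, ∀ᶠ p in b.near c0,
      ‖p.ev P‖ ^ 2 * d.Dd p ^ ((d.m * L : ℕ) : ℝ) ≤ A * ‖p.ev b.z‖ ^ (2 * n - ε)) :
    ∃ s : ℤ, d.Og Ω d.sg s ∧ Ω.μ * n ≤ L * s + Ω.μ * a := by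
  have m0 : (0 : ℝ) < d.m := by have := d.hm; positivity
  have L0 : (0 : ℝ) < L := by positivity
  have μ0 : (0 : ℝ) < Ω.μ := by have := Ω.pos; positivity
  have T0 : (0 : ℝ) < (d.m * L : ℕ) := by push_cast; positivity
  set T : ℝ := ((d.m * L : ℕ) : ℝ) with hT
  have eT : T = d.m * L := by rw [hT]; push_cast; rfl
  refine ⟨⌈Ω.μ * (n - a) / L⌉, Dat.og_of_Nx h0 d.sg (x := Ω.μ * (n - a) / T) (fun ε hε => ?_) ?_, ?_⟩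
  · obtain ⟨A, hA⟩ := h3 (ε * T / Ω.μ) (by positivity)
    refine ⟨(|A| / κ1 ^ 2) ^ T⁻¹, (Ω.near_β h0 (h2.and hA)).mono fun y hy hu => ?_⟩
    obtain ⟨⟨g1, g2⟩, g3⟩ := hy hu
    have u0 : 0 < ‖y b.i0‖ := norm_pos_iff.2 hu
    have D0 := d.Dd_pos (Ω.β y)
    rw [d.Nx_sg]
    refine ENNReal.ofReal_le_ofReal ?_
    rw [g3, ← Real.rpow_natCast _ Ω.μ] at g1 g2
    rw [← Real.rpow_intCast, ← Real.rpow_mul u0.le] at g1
    rw [← Real.rpow_mul u0.le] at g2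
    have e1 : d.Dd (Ω.β y) ^ T ≤ |A| / κ1 ^ 2 * ‖y b.i0‖ ^ ((2 * (Ω.μ * (n - a) / T) - ε) * T) := by
      have e2 : ‖y b.i0‖ ^ (Ω.μ * (2 * n - ε * T / Ω.μ)) =
          ‖y b.i0‖ ^ ((2 * (Ω.μ * (n - a) / T) - ε) * T) * (‖y b.i0‖ ^ ((Ω.μ : ℝ) * a)) ^ 2 := by
        rw [← Real.rpow_natCast, ← Real.rpow_mul u0.le, ← Real.rpow_add u0]
        congr 1
        field_simp
        ring
      have p1 : 0 < ‖y b.i0‖ ^ ((Ω.μ : ℝ) * a) := by positivity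
      have e3 : (κ1 * ‖y b.i0‖ ^ ((Ω.μ : ℝ) * a)) ^ 2 * d.Dd (Ω.β y) ^ T ≤
          |A| * ‖y b.i0‖ ^ (Ω.μ * (2 * n - ε * T / Ω.μ)) := by
        refine le_trans ?_ (g2.trans ?_)
        · gcongr
        · gcongr
          exact le_abs_self A
      rw [e2] at e3
      rw [div_mul_eq_mul_div, le_div_iff₀ (by positivity)]
      refine le_of_mul_le_mul_right (a := (‖y b.i0‖ ^ ((Ω.μ : ℝ) * a)) ^ 2) ?_ (by positivity)
      linarith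
    have := Real.rpow_le_rpow (by positivity) e1 (inv_nonneg.2 T0.le)
    rwa [Real.rpow_rpow_inv D0.le T0.ne', Real.mul_rpow (by positivity) (by positivity),
      Real.rpow_mul u0.le, Real.rpow_rpow_inv (by positivity) T0.ne'] at this
  · have := Int.ceil_lt_add_one (Ω.μ * (n - a) / L)
    rw [show d.m * (Ω.μ * (n - a) / T) = Ω.μ * (n - a) / L by rw [eT]; field_simp]
    linarith
  · have := Int.le_ceil (Ω.μ * (n - a) / L)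
    rw [div_le_iff₀ L0] at this
    linarith

/-- the lower bound for the weight -/
theorem Dat.wt_low (h0 : c0 (b.C.z b.i0) = 0) {g : d.B.O} (hg : IsUnit g) {θ : ℝ} (hθ : 0 ≤ θ)
    {e a : ℤ} {κ1 κ2 κ3 x : ℝ} (k1 : 0 < κ1) (k2 : 0 < κ2) (k3 : 0 < κ3) {ω : Pt d.B.O → ℝ}
    (h1 : ∀ᶠ p in b.near c0, κ1 * ‖p.ev b.z‖ ^ e ≤ ‖p.ev (d.η / b.J ^ d.k)‖)
    (h2 : ∀ᶠ p in b.near c0, ‖p.ev g‖ ≤ κ2 * ‖p.ev b.z‖ ^ a)
    (h3 : ∀ᶠ p in b.near c0, κ3 * ‖p.ev b.z‖ ^ (2 * x) ≤ ω p) :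
    ∃ A : ℝ, 0 < A ∧ ∀ᶠ y in 𝓝 (b.C.D.π c0), y b.i0 ≠ 0 →
      ENNReal.ofReal (A * ‖y b.i0‖ ^ (2 * ((Ω.μ - 1) + Ω.μ * (e / d.k - θ * a + x)))) ≤
      ENNReal.ofReal (‖y b.i0‖ ^ (2 * (Ω.μ - 1)) *
        ‖(Ω.β y).ev (Jac d.B.der fun i => (b.C.z i : K))‖⁻¹ ^ 2) *
        (d.wt g θ (Ω.β y) * ENNReal.ofReal (ω (Ω.β y))) := by
  have hJ : ∀ᶠ p in b.near c0, p.Reg b.J ∧ p.ev b.J ≠ 0 :=
    b.mem_near.2 (Eventually.of_forall fun c hc =>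
      ⟨((b.same hc) _).1.1 (b.reg_J hc).1, by rw [b.ev_map hc]; exact (b.reg_J hc).2.1⟩)
  have kk : (0 : ℝ) < d.k := by have := d.hk; positivity
  refine ⟨κ1 ^ (2 / d.k : ℝ) * κ2 ^ (-(2 * θ)) * κ3, by positivity,
    (Ω.near_β h0 (((h1.and h2).and h3).and hJ)).mono fun y hy hu => ?_⟩
  obtain ⟨⟨⟨⟨g1, g2⟩, g3⟩, g4, g5⟩, g6⟩ := hy hu
  set p := Ω.β y
  have u0 : 0 < ‖y b.i0‖ := norm_pos_iff.2 hu
  have η0 : 0 < ‖p d.η‖ := norm_pos_iff.2 (d.unit.map p).ne_zero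
  have a0 : 0 < ‖p g‖ := norm_pos_iff.2 (hg.map p).ne_zero
  have J0 : 0 < ‖p.ev b.J‖ := norm_pos_iff.2 g5
  rw [(p.ev_div (p.reg_coe _) (p.ev_pow g4 _).1 (by
    rw [(p.ev_pow g4 _).2]; exact pow_ne_zero _ g5)).2, (p.ev_pow g4 _).2, p.ev_of_mem d.η.2,
    norm_div, norm_pow] at g1
  rw [p.ev_of_mem g.2] at g2
  rw [g6, ← Real.rpow_natCast] at g1 g2 g3
  rw [← Real.rpow_intCast, ← Real.rpow_mul u0.le] at g1 g2
  rw [← Real.rpow_mul u0.le] at g3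
  have f1 := Real.rpow_le_rpow (by positivity) g1 (z := 2 / d.k) (by positivity)
  rw [Real.mul_rpow k1.le (by positivity), ← Real.rpow_mul u0.le,
    Real.div_rpow (by positivity) (by positivity), ← Real.rpow_natCast, ← Real.rpow_mul J0.le,
    mul_div_cancel₀ _ kk.ne', Real.rpow_two] at f1
  have f2 := Real.rpow_le_rpow_of_nonpos a0 g2 (z := -(2 * θ)) (by linarith)
  rw [Real.mul_rpow k2.le (by positivity), ← Real.rpow_mul u0.le] at f2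
  have ω0 : 0 ≤ ω p := le_trans (by positivity) g3
  rw [Dat.wt, ← ofReal_norm, ← ofReal_norm, ENNReal.ofReal_rpow_of_pos η0,
    ENNReal.ofReal_rpow_of_pos a0, ← ENNReal.ofReal_mul (by positivity),
    ← ENNReal.ofReal_mul (by positivity), ← ENNReal.ofReal_mul (by positivity)]
  refine ENNReal.ofReal_le_ofReal ?_
  have e1 : ‖y b.i0‖ ^ (2 * (Ω.μ - 1)) = ‖y b.i0‖ ^ (2 * ((Ω.μ : ℝ) - 1)) := by
    rw [← Real.rpow_natCast]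
    congr 1
    push_cast [Nat.cast_sub Ω.pos]
    rfl
  have e2 : ‖y b.i0‖ ^ (2 * ((Ω.μ - 1) + Ω.μ * (e / d.k - θ * a + x))) =
      ‖y b.i0‖ ^ (2 * ((Ω.μ : ℝ) - 1)) * (‖y b.i0‖ ^ ((Ω.μ : ℝ) * e * (2 / d.k)) *
        ‖y b.i0‖ ^ ((Ω.μ : ℝ) * a * -(2 * θ)) * ‖y b.i0‖ ^ (Ω.μ * (2 * x))) := by
    rw [← Real.rpow_add u0, ← Real.rpow_add u0, ← Real.rpow_add u0]
    congr 1
    ring
  rw [e1, e2]
  calc _ = ‖y b.i0‖ ^ (2 * ((Ω.μ : ℝ) - 1)) *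
        ((κ1 ^ (2 / d.k : ℝ) * ‖y b.i0‖ ^ ((Ω.μ : ℝ) * e * (2 / d.k))) *
        (κ2 ^ (-(2 * θ)) * ‖y b.i0‖ ^ ((Ω.μ : ℝ) * a * -(2 * θ))) *
        (κ3 * ‖y b.i0‖ ^ (Ω.μ * (2 * x)))) := by ring
    _ ≤ ‖y b.i0‖ ^ (2 * ((Ω.μ : ℝ) - 1)) * ((‖p d.η‖ ^ (2 / d.k : ℝ) / ‖p.ev b.J‖ ^ 2) *
        ‖p g‖ ^ (-(2 * θ)) * ω p) := by gcongr
    _ = _ := by
        rw [show (Jac d.B.der fun i => (b.C.z i : K)) = b.J from rfl, inv_pow]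
        ring

/-- the final inequality -/
theorem Dat.Og.regI {O : ValuationSubring M} {b : Bdy d.B (O.comap (algebraMap K M))}
    {c0 : Pt b.C.O} {Ω : OCh d.T.toRel O b.C b.i0 b.τ c0} (h0 : c0 (b.C.z b.i0) = 0)
    {κ : Type} [Fintype κ] [DecidableEq κ] {U : d.Ten κ} {a : ℤ} (hU : d.Og Ω U a) {h : K} {s e : ℤ}
    (hh : b.Ge h s) (he : b.Ge (d.η / b.J ^ d.k) e) {j : ℕ}
    (hj : d.m * Fintype.card κ = d.k * (j + 1)) {η1 : K} (h1 : Plu d.B.der d.k η1)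
    (H : 0 ≤ a + Ω.μ * (s + e * j) + ((Ω.μ - 1) * (d.m * Fintype.card κ) : ℕ)) :
    RegI d.T.X.der (d.m * Fintype.card κ) (d.diag U * algebraMap K M (h * d.η ^ j * η1)) O := by
  have e1 : b.Ge (η1 / b.J ^ d.k) 0 :=
    b.ge_zero_iff.2 ((div_pow_mem_iff b.J_ne).2 (h1.le_adp b.cen.adp))
  have e2 := Ω.val_le.1 (b.ge_val.1 ((hh.mul (he.pow j)).mul e1))
  have hJ := Ω.jac_ne
  have hJ' : algebraMap K M b.J ≠ 0 := (map_ne_zero _).2 b.J_ne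
  have hξ := Ω.val_pos
  rw [Ω.reg, ← map_pow, ← div_le_one₀ ((Valuation.pos_iff _).2
    (pow_ne_zero _ (mul_ne_zero hJ' hJ))), ← map_div₀]
  have e3 : d.diag U * algebraMap K M (h * d.η ^ j * η1) *
      Ω.ξ ^ ((Ω.μ - 1) * (d.m * Fintype.card κ)) /
      (algebraMap K M b.J * Jac d.T.dx Ω.w) ^ (d.m * Fintype.card κ) =
      d.diag U / Jac d.T.dx Ω.w ^ (d.m * Fintype.card κ) *
        algebraMap K M (h * (d.η / b.J ^ d.k) ^ j * (η1 / b.J ^ d.k)) *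
        Ω.ξ ^ ((Ω.μ - 1) * (d.m * Fintype.card κ)) := by
    have : h * (d.η / b.J ^ d.k) ^ j * (η1 / b.J ^ d.k) =
        h * d.η ^ j * η1 / b.J ^ (d.m * Fintype.card κ) := by
      rw [hj, div_pow, ← pow_mul, mul_add, mul_one, pow_add]
      ring
    rw [this, map_div₀, map_pow, mul_pow]
    ring
  rw [show (Jac d.B.der fun i => (b.C.z i : K)) = b.J from rfl, e3, map_mul, map_mul, map_pow]
  refine (mul_le_mul' (mul_le_mul' (hU.diag h0) e2) le_rfl).trans ?_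
  rw [← zpow_natCast, ← zpow_add₀ hξ.ne', ← zpow_add₀ hξ.ne']
  exact zpow_le_one₀ hξ Ω.lt.le (by simpa using H)

end Pool.Agent.Lib.MP_5c318e_ag
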